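import Mathlib

/-!
Digit expansions in a Cantor series: tail values and the integers formed by blocks of digits.
-/

set_option autoImplicit false

open Filter Topology Finset

namespace Pool.Agent.Zk24.QI

/-- the integer formed by the digits with index in `[k, k + j)` -/
def ip (b : ℕ → ℕ) (x : ℕ → ℤ) (k : ℕ) : ℕ → ℤ
  | 0 => 0
  | j + 1 => (b (k + j) : ℤ) * ip b x k j + x (k + j)

/-- `b k * ... * b (k + j - 1)` -/
def bp (b : ℕ → ℕ) (k j : ℕ) : ℕ := ∏ i ∈ range j, b (k + i)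

/-- the tail value `∑ j, x (k + j) / (b k * ... * b (k + j))` -/
noncomputable def tv (b : ℕ → ℕ) (x : ℕ → ℤ) (k : ℕ) : ℝ :=
  ∑' j, (x (k + j) : ℝ) / (bp b k (j + 1) : ℝ)

lemma bp_zero (b : ℕ → ℕ) (k : ℕ) : bp b k 0 = 1 := by simp [bp]

lemma bp_succ (b : ℕ → ℕ) (k j : ℕ) : bp b k (j + 1) = bp b k j * b (k + j) := by
  simp [bp, prod_range_succ]

lemma bp_succ' (b : ℕ → ℕ) (k j : ℕ) : bp b k (j + 1) = b k * bp b (k + 1) j := by
  simp only [bp, prod_range_succ', add_zero]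
  rw [mul_comm]
  congr 1
  refine prod_congr rfl fun i _ => ?_
  congr 1
  ring

lemma bp_add (b : ℕ → ℕ) (k i j : ℕ) : bp b k (i + j) = bp b k i * bp b (k + i) j := by
  induction j with
  | zero => simp [bp_zero]
  | succ j ih => rw [← add_assoc, bp_succ, ih, bp_succ, mul_assoc]; congr 2; rw [add_assoc]

lemma two_pow_le_bp {b : ℕ → ℕ} (hb : ∀ n, 2 ≤ b n) (k j : ℕ) : 2 ^ j ≤ bp b k j := by
  induction j with
  | zero => simp [bp_zero]
  | succ j ih => rw [bp_succ, pow_succ]; exact Nat.mul_le_mul ih (hb _)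

lemma bp_pos {b : ℕ → ℕ} (hb : ∀ n, 2 ≤ b n) (k j : ℕ) : 0 < bp b k j :=
  lt_of_lt_of_le (by positivity) (two_pow_le_bp hb k j)

lemma bp_le_pow {b : ℕ → ℕ} {B : ℕ} (hB : ∀ n, b n ≤ B) (k j : ℕ) : bp b k j ≤ B ^ j := by
  induction j with
  | zero => simp [bp_zero]
  | succ j ih => rw [bp_succ, pow_succ]; exact Nat.mul_le_mul ih (hB _)

lemma bpR_pos {b : ℕ → ℕ} (hb : ∀ n, 2 ≤ b n) (k j : ℕ) : (0 : ℝ) < (bp b k j : ℝ) := by
  exact_mod_cast bp_pos hb k j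

lemma term_bound {b : ℕ → ℕ} (hb : ∀ n, 2 ≤ b n) {x : ℕ → ℤ} {M : ℕ} (hx : ∀ n, |x n| ≤ M)
    (k j : ℕ) : ‖(x (k + j) : ℝ) / (bp b k (j + 1) : ℝ)‖ ≤ (M : ℝ) / 2 * (1 / 2) ^ j := by
  rw [norm_div, Real.norm_natCast]
  have h1 : ‖(x (k + j) : ℝ)‖ ≤ (M : ℝ) := by
    rw [Real.norm_eq_abs]
    exact_mod_cast hx (k + j)
  have h2 : ((2 : ℝ) ^ (j + 1)) ≤ (bp b k (j + 1) : ℝ) := by
    exact_mod_cast two_pow_le_bp hb k (j + 1)
  have h3 : (0 : ℝ) < (2 : ℝ) ^ (j + 1) := by positivity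
  calc ‖(x (k + j) : ℝ)‖ / (bp b k (j + 1) : ℝ) ≤ (M : ℝ) / (2 : ℝ) ^ (j + 1) := by
        gcongr
    _ = (M : ℝ) / 2 * (1 / 2) ^ j := by
        rw [pow_succ, one_div, inv_pow]
        field_simp

lemma term_summable {b : ℕ → ℕ} (hb : ∀ n, 2 ≤ b n) {x : ℕ → ℤ} {M : ℕ} (hx : ∀ n, |x n| ≤ M)
    (k : ℕ) : Summable fun j => (x (k + j) : ℝ) / (bp b k (j + 1) : ℝ) :=
  Summable.of_norm_bounded (summable_geometric_two.mul_left _) (term_bound hb hx k)

lemma tv_abs {b : ℕ → ℕ} (hb : ∀ n, 2 ≤ b n) {x : ℕ → ℤ} {M : ℕ} (hx : ∀ n, |x n| ≤ M)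
    (k : ℕ) : |tv b x k| ≤ M := by
  have h := tsum_of_norm_bounded (hasSum_geometric_two.mul_left ((M : ℝ) / 2))
    (term_bound hb hx k)
  rw [Real.norm_eq_abs] at h
  unfold tv
  linarith

lemma tv_succ {b : ℕ → ℕ} (hb : ∀ n, 2 ≤ b n) {x : ℕ → ℤ} {M : ℕ} (hx : ∀ n, |x n| ≤ M)
    (k : ℕ) : (b k : ℝ) * tv b x k = x k + tv b x (k + 1) := by
  have hbk : (0 : ℝ) < (b k : ℝ) := by
    have := hb k
    exact_mod_cast (by omega : 0 < b k)
  unfold tv
  rw [(term_summable hb hx k).tsum_eq_zero_add, mul_add, ← tsum_mul_left]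
  congr 1
  · simp [bp]
    field_simp
  · refine tsum_congr fun j => ?_
    rw [bp_succ' b k (j + 1)]
    have e : k + (j + 1) = k + 1 + j := by ring
    rw [e]
    have := bpR_pos hb (k + 1) (j + 1)
    push_cast
    field_simp

lemma tv_ip {b : ℕ → ℕ} (hb : ∀ n, 2 ≤ b n) {x : ℕ → ℤ} {M : ℕ} (hx : ∀ n, |x n| ≤ M)
    (k j : ℕ) : (bp b k j : ℝ) * tv b x k = ip b x k j + tv b x (k + j) := by
  induction j with
  | zero => simp [bp_zero, ip]
  | succ j ih =>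
    rw [bp_succ]
    push_cast
    rw [mul_right_comm, ih, ip, ← add_assoc]
    push_cast
    have := tv_succ hb hx (k + j)
    linarith

lemma ip_congr {b : ℕ → ℕ} {x y : ℕ → ℤ} {k j : ℕ} (h : ∀ i, i < j → x (k + i) = y (k + i)) :
    ip b x k j = ip b y k j := by
  induction j with
  | zero => rfl
  | succ j ih => rw [ip, ip, ih fun i hi => h i (by omega), h j (by omega)]

lemma ip_abs {b : ℕ → ℕ} (hb : ∀ n, 2 ≤ b n) {x : ℕ → ℤ} {M : ℕ} (hx : ∀ n, |x n| ≤ M)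
    (k j : ℕ) : |ip b x k j| ≤ (M : ℤ) * bp b k j - M := by
  induction j with
  | zero => simp [bp_zero, ip]
  | succ j ih =>
    rw [ip, bp_succ]
    have h1 : |(b (k + j) : ℤ) * ip b x k j| = (b (k + j) : ℤ) * |ip b x k j| := by
      rw [abs_mul, Nat.abs_cast]
    have h2 := abs_add_le ((b (k + j) : ℤ) * ip b x k j) (x (k + j))
    have h3 := hx (k + j)
    have h4 : (2 : ℤ) ≤ (b (k + j) : ℤ) := by exact_mod_cast hb (k + j)
    have h5 : (b (k + j) : ℤ) * |ip b x k j| ≤ (b (k + j) : ℤ) * ((M : ℤ) * bp b k j - M) := by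
      gcongr
    have h6 : (0 : ℤ) ≤ M := by positivity
    push_cast
    nlinarith

lemma ip_inj {b : ℕ → ℕ} {x y : ℕ → ℤ} (hx : ∀ n, 0 ≤ x n ∧ x n < b n)
    (hy : ∀ n, 0 ≤ y n ∧ y n < b n) {k j : ℕ} (h : ip b x k j = ip b y k j) :
    ∀ i, i < j → x (k + i) = y (k + i) := by
  induction j with
  | zero => intro i hi; omega
  | succ j ih =>
    rw [ip, ip] at h
    have hx1 := hx (k + j)
    have hy1 := hy (k + j)
    have h1 : (b (k + j) : ℤ) * (ip b x k j - ip b y k j) = y (k + j) - x (k + j) := by linarith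
    have h2 : ip b x k j - ip b y k j = 0 := by
      by_contra hne
      rcases lt_or_gt_of_ne hne with h3 | h3
      · have : ip b x k j - ip b y k j ≤ -1 := by omega
        nlinarith
      · have : 1 ≤ ip b x k j - ip b y k j := by omega
        nlinarith
    have h3 : x (k + j) = y (k + j) := by
      rw [h2, mul_zero] at h1
      linarith
    intro i hi
    rcases Nat.lt_succ_iff_lt_or_eq.1 hi with h4 | h4
    · exact ih (by linarith) i h4
    · rw [h4]; exact h3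

lemma tendsto_bp_inv {b : ℕ → ℕ} (hb : ∀ n, 2 ≤ b n) :
    Tendsto (fun k => (1 : ℝ) / (bp b 0 k : ℝ)) atTop (𝓝 0) := by
  refine squeeze_zero (fun k => by positivity) (fun k => ?_)
    (tendsto_pow_atTop_nhds_zero_of_lt_one (by norm_num : (0 : ℝ) ≤ 1 / 2) (by norm_num))
  have h2 : ((2 : ℝ) ^ k) ≤ (bp b 0 k : ℝ) := by exact_mod_cast two_pow_le_bp hb 0 k
  rw [one_div_pow]
  exact one_div_le_one_div_of_le (by positivity) h2

end Pool.Agent.Zk24.QI
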