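import Mathlib
import Pool.Agent.Zk24.QI.Basic
import Pool.Agent.R477.XQ.Overlap

/-!
Quasi-independent digits, infinitely many of which are not nearly constant: the law of the sum
overlaps with infinitely many of its translates.
-/

set_option autoImplicit false

open MeasureTheory Filter Topology Set
open scoped ENNReal NNReal

namespace Pool.Agent.Zk24.QI

abbrev T := UnitAddCircle

variable {Ω : Type*} [MeasurableSpace Ω]

lemma trick {Q : Measure Ω} {Z : Ω → T} {s : Finset ℤ} {W W' : ℤ → Set Ω} {t c1 : ℝ≥0∞}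
    (ht : 2 * ((s.card : ℝ≥0∞) * (s.card : ℝ≥0∞) * c1) < t)
    (h : ∀ E : Set T, MeasurableSet E →
      t ≤ ∑ w ∈ s, Q (W w ∩ Z ⁻¹' E) + ∑ w ∈ s, Q (W' w ∩ Z ⁻¹' Eᶜ)) :
    ∃ w ∈ s, ∃ w' ∈ s, ∀ E : Set T, MeasurableSet E →
      c1 ≤ Q (W w ∩ Z ⁻¹' E) + Q (W' w' ∩ Z ⁻¹' Eᶜ) := by
  by_contra hcon
  push Not at hcon
  choose! F hF1 hF2 using hcon
  set E : Set T := ⋂ w ∈ s, ⋃ w' ∈ s, F w w' with hE
  have hEm : MeasurableSet E := by
    refine Finset.measurableSet_biInter s fun w hw => ?_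
    exact Finset.measurableSet_biUnion s fun w' hw' => hF1 w hw w' hw'
  have h1 : ∑ w ∈ s, Q (W w ∩ Z ⁻¹' E) ≤ (s.card : ℝ≥0∞) * (s.card : ℝ≥0∞) * c1 := by
    calc ∑ w ∈ s, Q (W w ∩ Z ⁻¹' E) ≤ ∑ w ∈ s, ∑ w' ∈ s, c1 := by
          refine Finset.sum_le_sum fun w hw => ?_
          have hsub : W w ∩ Z ⁻¹' E ⊆ ⋃ w' ∈ s, W w ∩ Z ⁻¹' F w w' := by
            rintro ω ⟨hω1, hω2⟩
            have h3 : Z ω ∈ ⋃ w' ∈ s, F w w' := by
              have := mem_iInter₂.1 hω2 w hw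
              exact this
            obtain ⟨w', hw', h4⟩ := mem_iUnion₂.1 h3
            exact mem_iUnion₂.2 ⟨w', hw', hω1, h4⟩
          refine (measure_mono hsub).trans ((measure_biUnion_finset_le _ _).trans ?_)
          refine Finset.sum_le_sum fun w' hw' => ?_
          exact le_trans le_self_add (hF2 w hw w' hw').le
      _ = _ := by simp [mul_assoc]
  have h2 : ∑ w ∈ s, Q (W' w ∩ Z ⁻¹' Eᶜ) ≤ (s.card : ℝ≥0∞) * (s.card : ℝ≥0∞) * c1 := by
    calc ∑ w' ∈ s, Q (W' w' ∩ Z ⁻¹' Eᶜ) ≤ ∑ w' ∈ s, ∑ w ∈ s, c1 := by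
          refine Finset.sum_le_sum fun w' hw' => ?_
          have hsub : W' w' ∩ Z ⁻¹' Eᶜ ⊆ ⋃ w ∈ s, W' w' ∩ Z ⁻¹' (F w w')ᶜ := by
            rintro ω ⟨hω1, hω2⟩
            have h3 : Z ω ∉ E := hω2
            rw [hE, mem_iInter₂] at h3
            push Not at h3
            obtain ⟨w, hw, h4⟩ := h3
            rw [mem_iUnion₂] at h4
            push Not at h4
            exact mem_iUnion₂.2 ⟨w, hw, hω1, h4 w' hw'⟩
          refine (measure_mono hsub).trans ((measure_biUnion_finset_le _ _).trans ?_)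
          refine Finset.sum_le_sum fun w hw => ?_
          exact le_trans le_add_self (hF2 w hw w' hw').le
      _ = _ := by simp [mul_assoc]
  have h3 := h E hEm
  have h4 : t ≤ 2 * ((s.card : ℝ≥0∞) * (s.card : ℝ≥0∞) * c1) := by
    refine h3.trans ?_
    rw [two_mul]
    exact add_le_add h1 h2
  exact absurd ht (not_lt.2 h4)

lemma sum_levels {Q : Measure Ω} {U : Ω → ℤ} (hU : Measurable U) {A : Set Ω}
    (hA : MeasurableSet A) : ∑' u, Q ({ω | U ω = u} ∩ A) ≤ Q A := by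
  rw [← measure_iUnion]
  · refine measure_mono ?_
    exact iUnion_subset fun u => inter_subset_right
  · intro u u' huu'
    refine Set.disjoint_left.2 ?_
    rintro ω ⟨h1, _⟩ ⟨h2, _⟩
    exact huu' (h1.symm.trans h2)
  · intro u
    exact (measurableSet_eq_fun hU measurable_const).inter hA

lemma sum_levels_univ {P : Measure Ω} [IsProbabilityMeasure P] {U : Ω → ℤ} (hU : Measurable U) :
    ∑' u, P {ω | U ω = u} = 1 := by
  rw [← measure_iUnion]
  · have : (⋃ u, {ω | U ω = u}) = univ := by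
      ext ω
      simp
    rw [this]
    exact measure_univ
  · intro u u' huu'
    refine Set.disjoint_left.2 ?_
    intro ω h1 h2
    exact huu' (Eq.trans (Eq.symm h1) h2)
  · intro u
    exact measurableSet_eq_fun hU measurable_const

/-- `X`, the value of the whole expansion modulo one -/
noncomputable def XX (b : ℕ → ℕ) (ξ : ℕ → Ω → ℤ) (k : ℕ) (ω : Ω) : T :=
  ((tv b (fun i => ξ i ω) k : ℝ) : T)

lemma meas_ip {b : ℕ → ℕ} {ξ : ℕ → Ω → ℤ} (hξ : ∀ n, Measurable (ξ n)) (k j : ℕ) :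
    Measurable fun ω => ip b (fun i => ξ i ω) k j := by
  induction j with
  | zero => exact measurable_const
  | succ j ih => exact (ih.const_mul _).add (hξ _)

lemma meas_tv {b : ℕ → ℕ} (hb : ∀ n, 2 ≤ b n) {ξ : ℕ → Ω → ℤ} (hξ : ∀ n, Measurable (ξ n))
    {M : ℕ} (hM : ∀ n ω, |ξ n ω| ≤ M) (k : ℕ) :
    Measurable fun ω => tv b (fun i => ξ i ω) k := by
  refine measurable_of_tendsto_metrizable (f := fun N ω => ∑ j ∈ Finset.range N,
    (ξ (k + j) ω : ℝ) / (bp b k (j + 1) : ℝ)) (fun N => ?_) ?_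
  · refine Finset.measurable_sum _ fun j _ => Measurable.div_const ?_ _
    exact (measurable_of_countable (fun a : ℤ => (a : ℝ))).comp (hξ _)
  · rw [tendsto_pi_nhds]
    intro ω
    exact (term_summable hb (fun n => hM n ω) k).hasSum.tendsto_sum_nat

lemma meas_coe : Measurable fun x : ℝ => (x : T) := (AddCircle.continuous_mk' 1).measurable

lemma meas_XX {b : ℕ → ℕ} (hb : ∀ n, 2 ≤ b n) {ξ : ℕ → Ω → ℤ} (hξ : ∀ n, Measurable (ξ n))
    {M : ℕ} (hM : ∀ n ω, |ξ n ω| ≤ M) (k : ℕ) : Measurable (XX b ξ k) :=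
  meas_coe.comp (meas_tv hb hξ hM k)

lemma decomp {b : ℕ → ℕ} (hb : ∀ n, 2 ≤ b n) {x : ℕ → ℤ} {M : ℕ} (hx : ∀ n, |x n| ≤ M)
    (k j : ℕ) : tv b x 0 = ((ip b x 0 k : ℝ) / (bp b 0 k : ℝ)
      + tv b x (k + j) / (bp b 0 (k + j) : ℝ)) + (ip b x k j : ℝ) / (bp b 0 (k + j) : ℝ) := by
  have h1 := tv_ip hb hx 0 k
  have h2 := tv_ip hb hx k j
  have h3 : (bp b 0 (k + j) : ℝ) = (bp b 0 k : ℝ) * (bp b k j : ℝ) := by
    rw [bp_add, Nat.zero_add]
    push_cast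
    ring
  have h4 := bpR_pos hb 0 k
  have h5 := bpR_pos hb k j
  rw [h3]
  rw [Nat.zero_add] at h1
  have h6 : tv b x (k + j) = (bp b k j : ℝ) * tv b x k - ip b x k j := by linarith
  have h7 : tv b x k = (bp b 0 k : ℝ) * tv b x 0 - ip b x 0 k := by linarith
  rw [h6, h7]
  field_simp
  ring

/-- core step: a good index gives a nontrivial overlap with a translate -/
lemma step {b : ℕ → ℕ} {B : ℕ} (hb : ∀ n, 2 ≤ b n) (hB : ∀ n, b n ≤ B) {ξ : ℕ → Ω → ℤ}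
    (hξ : ∀ n, Measurable (ξ n)) {M : ℕ} (hM : ∀ n ω, |ξ n ω| ≤ M) {m : ℕ}
    (hm : m = 0 ∨ ∀ n ω, 0 ≤ ξ n ω ∧ ξ n ω < b n)
    {P Q : Measure Ω} [IsProbabilityMeasure P] [IsProbabilityMeasure Q] {c ε c1 : ℝ≥0}
    (k : ℕ)
    (hlow : ∀ (u a : ℤ) (E : Set ℝ), MeasurableSet E →
      (c : ℝ≥0∞) * (P {ω | ip b (fun i => ξ i ω) 0 k = u} * P {ω | ξ (k + m) ω = a} *
        Q {ω | tv b (fun i => ξ i ω) (k + (2 * m + 1)) ∈ E}) ≤
      Q ({ω | ip b (fun i => ξ i ω) 0 k = u} ∩ ({ω | ξ (k + m) ω = a} ∩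
        {ω | tv b (fun i => ξ i ω) (k + (2 * m + 1)) ∈ E})))
    {a a' : ℤ} (haa : a ≠ a') (ha : (ε : ℝ≥0∞) ≤ P {ω | ξ (k + m) ω = a})
    (ha' : (ε : ℝ≥0∞) ≤ P {ω | ξ (k + m) ω = a'}) (hc1 : 0 < c1)
    (hc1' : 2 * ((2 * (M * B ^ (2 * m + 1)) + 1 : ℝ≥0) * (2 * (M * B ^ (2 * m + 1)) + 1 : ℝ≥0)
      * c1) < c * ε) :
    ∃ D : ℤ, D ≠ 0 ∧ |D| ≤ 2 * (M * bp b k (2 * m + 1)) ∧
      Pool.Agent.R477.XQ.Ov c1 1 1 (Q.map (XX b ξ 0)) (Q.map (XX b ξ 0))
        (((D : ℝ) / (bp b 0 (k + (2 * m + 1)) : ℝ) : ℝ) : T) := by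
  set j := 2 * m + 1 with hj
  set s : Finset ℤ := Finset.Icc (-((M * B ^ j : ℕ) : ℤ)) ((M * B ^ j : ℕ) : ℤ) with hs
  have hcard : s.card = 2 * (M * B ^ j) + 1 := by
    rw [hs, Int.card_Icc]
    omega
  set U : Ω → ℤ := fun ω => ip b (fun i => ξ i ω) 0 k with hU
  set V : Ω → ℤ := fun ω => ip b (fun i => ξ i ω) k j with hV
  have hUm : Measurable U := meas_ip hξ 0 k
  have hVm : Measurable V := meas_ip hξ k j
  have htm := meas_tv hb hξ hM (k + j)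
  set Z : Ω → T := fun ω => (((U ω : ℝ) / (bp b 0 k : ℝ)
      + tv b (fun i => ξ i ω) (k + j) / (bp b 0 (k + j) : ℝ) : ℝ) : T) with hZ
  have hZm : Measurable Z := by
    refine meas_coe.comp (Measurable.add (Measurable.div_const ?_ _) (htm.div_const _))
    exact (measurable_of_countable (fun a : ℤ => (a : ℝ))).comp hUm
  have hXZ : ∀ ω, XX b ξ 0 ω = Z ω + (((V ω : ℝ) / (bp b 0 (k + j) : ℝ) : ℝ) : T) := by
    intro ω
    rw [XX, decomp hb (fun n => hM n ω) k j, AddCircle.coe_add]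
  have hVs : ∀ ω, V ω ∈ s := by
    intro ω
    have h1 := ip_abs hb (fun n => hM n ω) k j
    have h2 : bp b k j ≤ B ^ j := bp_le_pow hB k j
    have h3 : ((M * bp b k j : ℕ) : ℤ) ≤ ((M * B ^ j : ℕ) : ℤ) := by
      exact_mod_cast Nat.mul_le_mul_left M h2
    have h4 : |V ω| ≤ ((M * B ^ j : ℕ) : ℤ) := by
      refine le_trans ?_ h3
      push_cast
      have : (0 : ℤ) ≤ M := by positivity
      change |ip b (fun i => ξ i ω) k j| ≤ _
      linarith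
    rw [hs, Finset.mem_Icc]
    exact abs_le.1 h4
  set W : ℤ → Set Ω := fun w => {ω | ξ (k + m) ω = a} ∩ {ω | V ω = w} with hW
  set W' : ℤ → Set Ω := fun w => {ω | ξ (k + m) ω = a'} ∩ {ω | V ω = w} with hW'
  have hcover : ∀ (a0 : ℤ) (G : Set Ω), Q ({ω | ξ (k + m) ω = a0} ∩ G) ≤
      ∑ w ∈ s, Q (({ω | ξ (k + m) ω = a0} ∩ {ω | V ω = w}) ∩ G) := by
    intro a0 G
    refine le_trans (measure_mono ?_) (measure_biUnion_finset_le _ _)
    rintro ω ⟨h1, h2⟩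
    exact mem_iUnion₂.2 ⟨V ω, hVs ω, ⟨⟨h1, rfl⟩, h2⟩⟩
  have hEu : ∀ (a0 : ℤ) (E : Set T), MeasurableSet E →
      ∑' u, (c : ℝ≥0∞) * (P {ω | U ω = u} * P {ω | ξ (k + m) ω = a0} *
        Q {ω | (((u : ℝ) / (bp b 0 k : ℝ)
      + tv b (fun i => ξ i ω) (k + j) / (bp b 0 (k + j) : ℝ) : ℝ) : T) ∈ E})
        ≤ Q ({ω | ξ (k + m) ω = a0} ∩ Z ⁻¹' E) := by
    intro a0 E hE
    refine le_trans (ENNReal.tsum_le_tsum fun u => ?_) (sum_levels hUm
      (((measurableSet_eq_fun (hξ (k + m)) measurable_const)).inter (hZm hE)))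
    set Eu : Set ℝ := {r : ℝ | (((u : ℝ) / (bp b 0 k : ℝ)
      + r / (bp b 0 (k + j) : ℝ) : ℝ) : T) ∈ E} with hEu
    have hEum : MeasurableSet Eu :=
      (meas_coe.comp ((measurable_id.div_const _).const_add _)) hE
    refine (hlow u a0 Eu hEum).trans (measure_mono ?_)
    rintro ω ⟨h1, h2, h3⟩
    refine ⟨h1, h2, ?_⟩
    change (((U ω : ℝ) / (bp b 0 k : ℝ)
      + tv b (fun i => ξ i ω) (k + j) / (bp b 0 (k + j) : ℝ) : ℝ) : T) ∈ E
    have h4 : U ω = u := h1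
    rw [h4]
    exact h3
  have htot : ∀ E : Set T, MeasurableSet E →
      (c : ℝ≥0∞) * ε ≤ ∑ w ∈ s, Q (W w ∩ Z ⁻¹' E) + ∑ w ∈ s, Q (W' w ∩ Z ⁻¹' Eᶜ) := by
    intro E hE
    refine le_trans ?_ (add_le_add (hcover a (Z ⁻¹' E)) (hcover a' (Z ⁻¹' Eᶜ)))
    refine le_trans ?_ (add_le_add (hEu a E hE) (hEu a' Eᶜ hE.compl))
    rw [← ENNReal.tsum_add]
    calc (c : ℝ≥0∞) * ε = ∑' u, (c : ℝ≥0∞) * ε * P {ω | U ω = u} := by
          rw [ENNReal.tsum_mul_left, sum_levels_univ hUm, mul_one]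
      _ ≤ _ := by
          refine ENNReal.tsum_le_tsum fun u => ?_
          set G : Set Ω := {ω | (((u : ℝ) / (bp b 0 k : ℝ)
            + tv b (fun i => ξ i ω) (k + j) / (bp b 0 (k + j) : ℝ) : ℝ) : T) ∈ E} with hG
          have hGm : MeasurableSet G :=
            (meas_coe.comp ((htm.div_const _).const_add _)) hE
          have hGc : {ω | (((u : ℝ) / (bp b 0 k : ℝ)
            + tv b (fun i => ξ i ω) (k + j) / (bp b 0 (k + j) : ℝ) : ℝ) : T) ∈ Eᶜ} = Gᶜ := rfl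
          rw [hGc]
          have h1 : Q G + Q Gᶜ = 1 := prob_add_prob_compl hGm
          calc (c : ℝ≥0∞) * ε * P {ω | U ω = u}
              = c * (P {ω | U ω = u} * ε * Q G) + c * (P {ω | U ω = u} * ε * Q Gᶜ) := by
                rw [← mul_add, ← mul_add, h1]
                ring
            _ ≤ _ := by gcongr
  have hct : 2 * ((s.card : ℝ≥0∞) * (s.card : ℝ≥0∞) * (c1 : ℝ≥0∞)) < (c : ℝ≥0∞) * ε := by
    rw [hcard]
    have := ENNReal.coe_lt_coe.2 hc1'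
    push_cast at this ⊢
    exact this
  obtain ⟨w, hw, w', hw', hww⟩ := trick hct htot
  have hne : ∃ ω, ω ∈ W w := by
    have h1 := hww univ MeasurableSet.univ
    rw [compl_univ, preimage_empty, inter_empty, measure_empty, add_zero, preimage_univ,
      inter_univ] at h1
    by_contra hcon
    push Not at hcon
    have h2 : W w = ∅ := eq_empty_of_forall_notMem hcon
    rw [h2, measure_empty] at h1
    have h3 : (c1 : ℝ≥0∞) = 0 := le_antisymm h1 bot_le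
    exact hc1.ne' (by exact_mod_cast h3)
  have hne' : ∃ ω, ω ∈ W' w' := by
    have h1 := hww ∅ MeasurableSet.empty
    rw [compl_empty, preimage_empty, inter_empty, measure_empty, zero_add, preimage_univ,
      inter_univ] at h1
    by_contra hcon
    push Not at hcon
    have h2 : W' w' = ∅ := eq_empty_of_forall_notMem hcon
    rw [h2, measure_empty] at h1
    have h3 : (c1 : ℝ≥0∞) = 0 := le_antisymm h1 bot_le
    exact hc1.ne' (by exact_mod_cast h3)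
  obtain ⟨ω, hω1, hω2⟩ := hne
  obtain ⟨ω', hω1', hω2'⟩ := hne'
  have hω1 : ξ (k + m) ω = a := hω1
  have hω2 : ip b (fun i => ξ i ω) k j = w := hω2
  have hω1' : ξ (k + m) ω' = a' := hω1'
  have hω2' : ip b (fun i => ξ i ω') k j = w' := hω2'
  refine ⟨w - w', ?_, ?_, ?_⟩
  · intro h0
    have h1 : ip b (fun i => ξ i ω) k j = ip b (fun i => ξ i ω') k j := by
      rw [hω2, hω2']
      linarith
    rcases hm with hm | hm
    · subst hm
      have hj1 : j = 1 := by omega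
      rw [hj1] at h1
      simp only [ip, mul_zero, zero_add, add_zero] at h1 hω1 hω1'
      exact haa (by rw [← hω1, ← hω1', h1])
    · have h2 : ξ (k + m) ω = ξ (k + m) ω' :=
        ip_inj (fun n => hm n ω) (fun n => hm n ω') h1 m (by omega)
      exact haa (by rw [← hω1, ← hω1', h2])
  · have h1 := ip_abs hb (fun n => hM n ω) k j
    have h2 := ip_abs hb (fun n => hM n ω') k j
    rw [hω2] at h1
    rw [hω2'] at h2
    have h3 := abs_sub w w'
    have : (0 : ℤ) ≤ M := by positivity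
    linarith
  · intro A hA
    set E : Set T := {z | z + (((w : ℝ) / (bp b 0 (k + j) : ℝ) : ℝ) : T) ∈ A} with hE
    have hEm : MeasurableSet E := (measurable_add_const _) hA
    have hXm := meas_XX hb hξ hM 0
    refine (hww E hEm).trans (add_le_add ?_ ?_)
    · rw [Measure.map_apply hXm]
      · refine measure_mono ?_
        rintro ω ⟨⟨_, h2⟩, h3⟩
        have h2 : V ω = w := h2
        have h3 : Z ω + (((w : ℝ) / (bp b 0 (k + j) : ℝ) : ℝ) : T) ∈ A := h3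
        change (1 : ℤ) • XX b ξ 0 ω ∈ A
        rw [one_zsmul, hXZ, h2]
        exact h3
      · simp only [one_zsmul]
        exact hA
    · rw [Measure.map_apply hXm]
      · refine measure_mono ?_
        rintro ω ⟨⟨_, h2⟩, h3⟩
        have h2 : V ω = w' := h2
        have h3 : ¬ Z ω + (((w : ℝ) / (bp b 0 (k + j) : ℝ) : ℝ) : T) ∈ A := h3
        change (1 : ℤ) • XX b ξ 0 ω + _ ∉ A
        rw [one_zsmul, hXZ, h2, add_assoc, ← AddCircle.coe_add]
        have e : (w' : ℝ) / (bp b 0 (k + j) : ℝ) + (((w - w' : ℤ) : ℝ) / (bp b 0 (k + j) : ℝ))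
            = (w : ℝ) / (bp b 0 (k + j) : ℝ) := by
          push_cast
          ring
        rw [e]
        exact h3
      · simp only [one_zsmul]
        exact (measurable_add_const _) hA.compl

lemma norm_coe_le (x : ℝ) : ‖(x : T)‖ ≤ |x| := by
  rw [UnitAddCircle.norm_eq]
  simpa using round_le x 0

lemma coe_ne_zero {x : ℝ} (h0 : x ≠ 0) (h1 : |x| < 1) : (x : T) ≠ 0 := by
  intro h
  obtain ⟨n, hn⟩ := (AddCircle.coe_eq_zero_iff (1 : ℝ)).1 h
  rw [zsmul_eq_mul, mul_one] at hn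
  rw [← hn] at h1 h0
  have h2 : |n| < 1 := by exact_mod_cast h1
  have h3 : n = 0 := Int.abs_lt_one_iff.1 h2
  rw [h3] at h0
  simp at h0

/-- **Lemma A.** -/
theorem lemA {p q : ℕ} (hp : 2 ≤ p) (hq : 2 ≤ q)
    (hirr : Irrational (Real.log p / Real.log q))
    {b : ℕ → ℕ} {B : ℕ} (hb : ∀ n, 2 ≤ b n) (hB : ∀ n, b n ≤ B) {ξ : ℕ → Ω → ℤ}
    (hξ : ∀ n, Measurable (ξ n)) {M : ℕ} (hM : ∀ n ω, |ξ n ω| ≤ M) {m : ℕ}
    (hm : m = 0 ∨ ∀ n ω, 0 ≤ ξ n ω ∧ ξ n ω < b n)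
    {P Q : Measure Ω} [IsProbabilityMeasure P] [IsProbabilityMeasure Q] {c ε : ℝ≥0}
    (hc : 0 < c) (hε : 0 < ε)
    (hμp : MeasurePreserving (fun x : T => p • x) (Q.map (XX b ξ 0)) (Q.map (XX b ξ 0)))
    (hμq : MeasurePreserving (fun x : T => q • x) (Q.map (XX b ξ 0)) (Q.map (XX b ξ 0)))
    (hlow : ∀ (k : ℕ) (u a : ℤ) (E : Set ℝ), MeasurableSet E →
      (c : ℝ≥0∞) * (P {ω | ip b (fun i => ξ i ω) 0 k = u} * P {ω | ξ (k + m) ω = a} *
        Q {ω | tv b (fun i => ξ i ω) (k + (2 * m + 1)) ∈ E}) ≤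
      Q ({ω | ip b (fun i => ξ i ω) 0 k = u} ∩ ({ω | ξ (k + m) ω = a} ∩
        {ω | tv b (fun i => ξ i ω) (k + (2 * m + 1)) ∈ E})))
    (hnd : ∃ᶠ n in atTop, ∃ a a' : ℤ, a ≠ a' ∧ (ε : ℝ≥0∞) ≤ P {ω | ξ n ω = a} ∧
      (ε : ℝ≥0∞) ≤ P {ω | ξ n ω = a'}) :
    ∃ c1 : ℝ≥0, 0 < c1 ∧ (c1 : ℝ≥0∞) • (volume : Measure T) ≤ Q.map (XX b ξ 0) := by
  have hXm := meas_XX hb hξ hM 0
  have iP : IsProbabilityMeasure (Q.map (XX b ξ 0)) :=
    Measure.isProbabilityMeasure_map hXm.aemeasurable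
  set K : ℝ≥0 := 2 * (M * B ^ (2 * m + 1)) + 1 with hK
  have hK0 : 0 < K := by positivity
  set c1 : ℝ≥0 := c * ε / (4 * (K * K)) with hc1
  have hc10 : 0 < c1 := by positivity
  have hc1' : 2 * (K * K * c1) < c * ε := by
    have h1 : 2 * (K * K * c1) = c * ε / 2 := by
      rw [hc1]
      field_simp
      norm_num
    rw [h1]
    exact NNReal.half_lt_self (by positivity)
  refine ⟨c1, hc10, ?_⟩
  by_contra hcon
  have hfin := Pool.Agent.R477.XQ.main_fin hp hq hirr (a := 1) (b := 1) one_ne_zero one_ne_zero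
    hμp hμq hcon
  set Θ : Set T := {θ : T | ∃ ν : Measure T, IsProbabilityMeasure ν ∧
      MeasurePreserving (fun x : T => p • x) ν ν ∧ MeasurePreserving (fun x : T => q • x) ν ν ∧
      Pool.Agent.R477.XQ.Ov c1 1 1 (Q.map (XX b ξ 0)) ν θ} with hΘ
  -- a positive lower bound for the nonzero elements
  obtain ⟨δ, hδ, hδ2⟩ : ∃ δ : ℝ, 0 < δ ∧ ∀ θ ∈ Θ, θ ≠ 0 → δ ≤ ‖θ‖ := by
    rcases (hfin.subset (inter_subset_left : Θ ∩ {0}ᶜ ⊆ Θ)).toFinset.eq_empty_or_nonempty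
      with h | h
    · refine ⟨1, one_pos, fun θ h1 h2 => ?_⟩
      have h3 : θ ∈ (hfin.subset (inter_subset_left : Θ ∩ {0}ᶜ ⊆ Θ)).toFinset := by
        rw [Set.Finite.mem_toFinset]
        exact ⟨h1, h2⟩
      rw [h] at h3
      simp at h3
    · obtain ⟨θ0, h1, h2⟩ := Finset.exists_min_image _ (fun θ : T => ‖θ‖) h
      rw [Set.Finite.mem_toFinset] at h1
      refine ⟨‖θ0‖, norm_pos_iff.2 h1.2, fun θ h3 h4 => h2 θ ?_⟩
      rw [Set.Finite.mem_toFinset]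
      exact ⟨h3, h4⟩
  -- small translates
  have hlim : Tendsto (fun k => (2 * (M : ℝ)) * (1 / (bp b 0 k : ℝ))) atTop (𝓝 0) := by
    simpa using (tendsto_bp_inv hb).const_mul (2 * (M : ℝ))
  have hev : ∀ᶠ k in atTop, (2 * (M : ℝ)) * (1 / (bp b 0 k : ℝ)) < min δ 1 :=
    hlim.eventually (gt_mem_nhds (lt_min hδ one_pos))
  obtain ⟨N, hN⟩ := eventually_atTop.1 hev
  obtain ⟨n, hn, a, a', haa, ha, ha'⟩ := frequently_atTop.1 hnd (N + m)
  obtain ⟨k, rfl⟩ : ∃ k, n = k + m := ⟨n - m, by omega⟩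
  have hk := hN k (by omega)
  obtain ⟨D, hD0, hD1, hD2⟩ := step hb hB hξ hM hm k (hlow k) haa ha ha' hc10
    (by simpa [hK] using hc1')
  set l := k + (2 * m + 1) with hl
  have hpos := bpR_pos hb 0 l
  have hposk := bpR_pos hb 0 k
  have habs : |(D : ℝ) / (bp b 0 l : ℝ)| ≤ (2 * (M : ℝ)) * (1 / (bp b 0 k : ℝ)) := by
    rw [abs_div, abs_of_pos hpos, div_le_iff₀ hpos]
    have h3 : (bp b 0 l : ℝ) = (bp b 0 k : ℝ) * (bp b k (2 * m + 1) : ℝ) := by
      rw [hl, bp_add, Nat.zero_add]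
      push_cast
      ring
    rw [h3]
    have h4 : |(D : ℝ)| ≤ 2 * ((M : ℝ) * (bp b k (2 * m + 1) : ℝ)) := by exact_mod_cast hD1
    refine h4.trans (le_of_eq ?_)
    field_simp
  have hne : (((D : ℝ) / (bp b 0 l : ℝ) : ℝ) : T) ≠ 0 := by
    refine coe_ne_zero ?_ ?_
    · exact div_ne_zero (by exact_mod_cast hD0) hpos.ne'
    · exact lt_of_le_of_lt habs (lt_of_lt_of_le hk (min_le_right _ _))
  have hmem : (((D : ℝ) / (bp b 0 l : ℝ) : ℝ) : T) ∈ Θ := ⟨_, iP, hμp, hμq, hD2⟩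
  have h5 := hδ2 _ hmem hne
  have h6 : ‖(((D : ℝ) / (bp b 0 l : ℝ) : ℝ) : T)‖ < δ :=
    lt_of_le_of_lt (norm_coe_le _) (lt_of_le_of_lt habs (lt_of_lt_of_le hk (min_le_left _ _)))
  linarith

end Pool.Agent.Zk24.QI
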