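import Mathlib
import Pool.Agent.Zk24.QI.Nondeg

/-!
Quasi-independent digits, infinitely many of which are not nearly constant: an invariant law is
Lebesgue measure.
-/

set_option autoImplicit false

open MeasureTheory Filter Topology Set
open scoped ENNReal NNReal

namespace Pool.Agent.Zk24.QI

variable {Ω : Type*} [MeasurableSpace Ω]

/-- lower quasi-independence of past and future, with a gap `m` -/
def Low (P : Measure Ω) (ξ : ℕ → Ω → ℤ) (m : ℕ) (C : ℝ≥0) : Prop :=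
  ∀ (k : ℕ) (S : Set (Fin k → ℤ)) (E : Set (ℕ → ℤ)), MeasurableSet E →
    P {ω | (fun i : Fin k => ξ i ω) ∈ S} * P {ω | (fun i : ℕ => ξ (k + m + i) ω) ∈ E} ≤
      C * P ({ω | (fun i : Fin k => ξ i ω) ∈ S} ∩ {ω | (fun i : ℕ => ξ (k + m + i) ω) ∈ E})

/-- upper quasi-independence of past and future, with a gap `m` -/
def Upp (P : Measure Ω) (ξ : ℕ → Ω → ℤ) (m : ℕ) (C : ℝ≥0) : Prop :=
  ∀ (k : ℕ) (S : Set (Fin k → ℤ)) (E : Set (ℕ → ℤ)), MeasurableSet E →
    P ({ω | (fun i : Fin k => ξ i ω) ∈ S} ∩ {ω | (fun i : ℕ => ξ (k + m + i) ω) ∈ E}) ≤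
      C * (P {ω | (fun i : Fin k => ξ i ω) ∈ S} * P {ω | (fun i : ℕ => ξ (k + m + i) ω) ∈ E})

/-- extension of a finite word by zeros -/
def ext {k : ℕ} (s : Fin k → ℤ) (i : ℕ) : ℤ := if h : i < k then s ⟨i, h⟩ else 0

lemma past_eq (ξ : ℕ → Ω → ℤ) {k : ℕ} {A : Set (ℕ → ℤ)}
    (hA : ∀ x y : ℕ → ℤ, (∀ i, i < k → x i = y i) → (x ∈ A ↔ y ∈ A)) :
    {ω | (fun i : ℕ => ξ i ω) ∈ A} = {ω | (fun i : Fin k => ξ i ω) ∈ {s | ext s ∈ A}} := by
  ext ω
  simp only [mem_setOf_eq]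
  refine hA _ _ fun i hi => ?_
  simp [ext, hi]

/-- clamp to `[-M, M]` -/
def cl (M : ℕ) (a : ℤ) : ℤ := max (-(M : ℤ)) (min a M)

lemma cl_abs (M : ℕ) (a : ℤ) : |cl M a| ≤ M := by
  unfold cl
  rw [abs_le]
  constructor
  · exact le_max_left _ _
  · refine max_le ?_ (min_le_right _ _)
    have : (0 : ℤ) ≤ M := by positivity
    linarith

lemma cl_eq {M : ℕ} {a : ℤ} (h : |a| ≤ M) : cl M a = a := by
  obtain ⟨h1, h2⟩ := abs_le.1 h
  unfold cl
  rw [min_eq_left h2, max_eq_right h1]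

lemma fut {b : ℕ → ℕ} (hb : ∀ n, 2 ≤ b n) {ξ : ℕ → Ω → ℤ} {M : ℕ} (hM : ∀ n ω, |ξ n ω| ≤ M)
    (l : ℕ) {E : Set ℝ} (hE : MeasurableSet E) :
    ∃ E' : Set (ℕ → ℤ), MeasurableSet E' ∧
      {ω | tv b (fun i => ξ i ω) l ∈ E} = {ω | (fun i => ξ (l + i) ω) ∈ E'} := by
  set b' : ℕ → ℕ := fun i => b (l + i) with hb'
  have hb2 : ∀ n, 2 ≤ b' n := fun n => hb _
  have hm : Measurable fun z : ℕ → ℤ => tv b' (fun i => cl M (z i)) 0 := by
    refine meas_tv (Ω := ℕ → ℤ) hb2 (ξ := fun i z => cl M (z i)) (M := M) (fun n => ?_)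
      (fun n z => cl_abs M _) 0
    exact (measurable_of_countable (cl M)).comp (measurable_pi_apply n)
  refine ⟨_, hm hE, ?_⟩
  ext ω
  simp only [mem_setOf_eq, mem_preimage]
  have h1 : tv b' (fun i => cl M (ξ (l + i) ω)) 0 = tv b (fun i => ξ i ω) l := by
    unfold tv
    refine tsum_congr fun j => ?_
    simp only [Nat.zero_add, cl_eq (hM _ _)]
    congr 2
    simp [bp, hb']
  rw [h1]

lemma vol_inv {p : ℕ} (hp : 2 ≤ p) :
    MeasurePreserving (fun x : T => p • x) (volume : Measure T) volume :=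
  (AddCircle.ergodic_nsmul (by omega : 1 < p)).toMeasurePreserving

/-- an invariant probability measure without singular part is Lebesgue measure -/
lemma eq_vol {p : ℕ} (hp : 2 ≤ p) {μ : Measure T} [IsProbabilityMeasure μ]
    (hμ : MeasurePreserving (fun x : T => p • x) μ μ) (hs : μ ≪ (volume : Measure T)) :
    μ = volume := by
  have herg : Ergodic (fun y : T => p • y) := AddCircle.ergodic_nsmul (by omega)
  obtain ⟨e, he⟩ := herg.eq_smul_of_absolutelyContinuous hμ hs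
  have h1 : μ univ = 1 := measure_univ
  rw [he] at h1
  have h2 : e = 1 := by simpa using h1
  rw [he, h2, one_smul]

/-- **Infinitely many nondegenerate digits.** -/
theorem nondeg {p q : ℕ} (hp : 2 ≤ p) (hq : 2 ≤ q)
    (hirr : Irrational (Real.log p / Real.log q))
    {b : ℕ → ℕ} {B : ℕ} (hb : ∀ n, 2 ≤ b n) (hB : ∀ n, b n ≤ B) {ξ : ℕ → Ω → ℤ}
    (hξ : ∀ n, Measurable (ξ n)) {M : ℕ} (hM : ∀ n ω, |ξ n ω| ≤ M) {m : ℕ}
    (hm : m = 0 ∨ ∀ n ω, 0 ≤ ξ n ω ∧ ξ n ω < b n)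
    {P : Measure Ω} [IsProbabilityMeasure P] {C ε : ℝ≥0} (hC : 0 < C) (hε : 0 < ε)
    (hμp : MeasurePreserving (fun x : T => p • x) (P.map (XX b ξ 0)) (P.map (XX b ξ 0)))
    (hμq : MeasurePreserving (fun x : T => q • x) (P.map (XX b ξ 0)) (P.map (XX b ξ 0)))
    (hlow : Low P ξ m C)
    (hnd : ∃ᶠ n in atTop, ∃ a a' : ℤ, a ≠ a' ∧ (ε : ℝ≥0∞) ≤ P {ω | ξ n ω = a} ∧
      (ε : ℝ≥0∞) ≤ P {ω | ξ n ω = a'}) :
    P.map (XX b ξ 0) = volume := by
  have hXm := meas_XX hb hξ hM 0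
  have iP : IsProbabilityMeasure (P.map (XX b ξ 0)) :=
    Measure.isProbabilityMeasure_map hXm.aemeasurable
  set μ := P.map (XX b ξ 0) with hμ
  refine eq_vol hp hμp ?_
  by_contra hac
  obtain ⟨s, hs, hs1, hs2⟩ := Measure.mutuallySingular_singularPart μ (volume : Measure T)
  set N : Set T := ⋃ r : ℚ, (fun x : T => x + ((r : ℝ) : T)) ⁻¹' sᶜ with hN
  have hNm : MeasurableSet N :=
    MeasurableSet.iUnion fun r => (measurable_add_const _) hs.compl
  have hNv : (volume : Measure T) N = 0 := by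
    refine measure_iUnion_null fun r => ?_
    rw [measure_preimage_add_right]
    exact hs2
  have hsN : sᶜ ⊆ N := by
    intro x hx
    refine mem_iUnion.2 ⟨0, ?_⟩
    simpa using hx
  have hNs : μ.singularPart volume Nᶜ = 0 :=
    measure_mono_null (compl_subset_comm.1 hsN) hs1
  have hrestr := Measure.singularPart_eq_restrict hNs hNv
  have hsat : ∀ (x : T) (r : ℚ), x + ((r : ℝ) : T) ∈ N → x ∈ N := by
    intro x r hx
    obtain ⟨r', hr'⟩ := mem_iUnion.1 hx
    refine mem_iUnion.2 ⟨r + r', ?_⟩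
    have h1 : x + ((r : ℝ) : T) + ((r' : ℝ) : T) ∈ sᶜ := hr'
    change x + (((r + r' : ℚ) : ℝ) : T) ∈ sᶜ
    have h2 : (((r + r' : ℚ) : ℝ) : T) = ((r : ℝ) : T) + ((r' : ℝ) : T) := by
      rw [← AddCircle.coe_add]
      push_cast
      rfl
    rw [h2, ← add_assoc]
    exact h1
  have hsat2 : ∀ (x : T) (r : ℚ), x + ((r : ℝ) : T) ∈ N ↔ x ∈ N := by
    intro x r
    refine ⟨hsat x r, fun hx => hsat _ (-r) ?_⟩
    have h2 : x + ((r : ℝ) : T) + (((-r : ℚ) : ℝ) : T) = x := by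
      rw [add_assoc, ← AddCircle.coe_add]
      push_cast
      rw [add_neg_cancel]
      simp
    rw [h2]
    exact hx
  by_cases h0 : μ N = 0
  · apply hac
    have h1 : μ.singularPart volume = 0 := by
      rw [hrestr, Measure.restrict_eq_zero.2 h0]
    have h2 := Measure.singularPart_add_rnDeriv μ (volume : Measure T)
    rw [h1, zero_add] at h2
    rw [← h2]
    exact withDensity_absolutelyContinuous _ _
  · set G : Set Ω := XX b ξ 0 ⁻¹' N with hG
    have hGm : MeasurableSet G := hXm hNm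
    have hPG : P G = μ N := (Measure.map_apply hXm hNm).symm
    have hPG0 : P G ≠ 0 := by rw [hPG]; exact h0
    have hPGt : P G ≠ ⊤ := measure_ne_top _ _
    set Q : Measure Ω := ProbabilityTheory.cond P G with hQ
    have iQ : IsProbabilityMeasure Q := ProbabilityTheory.cond_isProbabilityMeasure hPG0
    have hQmap : Q.map (XX b ξ 0) = (μ N)⁻¹ • μ.singularPart volume := by
      rw [hrestr, hQ, ProbabilityTheory.cond, Measure.map_smul, hPG, hμ,
        Measure.restrict_map hXm hNm]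
    have hQp : MeasurePreserving (fun x : T => p • x) (Q.map (XX b ξ 0)) (Q.map (XX b ξ 0)) := by
      rw [hQmap]
      exact (hμp.singularPart (vol_inv hp)).smul_measure _
    have hQq : MeasurePreserving (fun x : T => q • x) (Q.map (XX b ξ 0)) (Q.map (XX b ξ 0)) := by
      rw [hQmap]
      exact (hμq.singularPart (vol_inv hq)).smul_measure _
    -- the event `G` belongs to every tail
    have hGk : ∀ k : ℕ, G = {ω | tv b (fun i => ξ i ω) k ∈
        (fun r : ℝ => ((r / (bp b 0 k : ℝ) : ℝ) : T)) ⁻¹' N} := by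
      intro k
      ext ω
      change XX b ξ 0 ω ∈ N ↔ ((tv b (fun i => ξ i ω) k / (bp b 0 k : ℝ) : ℝ) : T) ∈ N
      have h1 := tv_ip hb (fun n => hM n ω) 0 k
      have h4 := bpR_pos hb 0 k
      rw [Nat.zero_add] at h1
      have h2 : tv b (fun i => ξ i ω) 0 = tv b (fun i => ξ i ω) k / (bp b 0 k : ℝ) +
          (((ip b (fun i => ξ i ω) 0 k : ℚ) / (bp b 0 k : ℚ) : ℚ) : ℝ) := by
        push_cast
        rw [← add_div, eq_div_iff h4.ne']
        linarith
      rw [XX, h2, AddCircle.coe_add]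
      exact hsat2 _ _
    obtain ⟨c1, hc1, hc2⟩ := lemA hp hq hirr hb hB hξ hM hm (P := P) (Q := Q)
      (c := (C * C)⁻¹) (ε := ε) (by positivity) hε hQp hQq (fun k u a E hE => by
        set l := k + (2 * m + 1) with hl
        have hl' : l = k + m + 1 + m := by omega
        -- the events
        set Ek : Set ℝ := (fun r : ℝ => ((r / (bp b 0 l : ℝ) : ℝ) : T)) ⁻¹' N with hEk
        have hEkm : MeasurableSet Ek := (meas_coe.comp (measurable_id.div_const _)) hNm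
        obtain ⟨F, hF, hF2⟩ := fut hb hM l (hE.inter hEkm)
        set A1 : Set Ω := {ω | ip b (fun i => ξ i ω) 0 k = u} with hA1
        set A2 : Set Ω := {ω | ξ (k + m) ω = a} with hA2
        set A3 : Set Ω := {ω | tv b (fun i => ξ i ω) l ∈ E} with hA3
        have hA3G : A3 ∩ G = {ω | tv b (fun i => ξ i ω) l ∈ E ∩ Ek} := by
          rw [hGk l]
          rfl
        have e1 : A1 = {ω | (fun i : Fin k => ξ i ω) ∈
            {s | ext s ∈ {x : ℕ → ℤ | ip b x 0 k = u}}} := by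
          rw [hA1]
          refine past_eq ξ (A := {x : ℕ → ℤ | ip b x 0 k = u}) fun x y hxy => ?_
          simp only [mem_setOf_eq]
          rw [ip_congr fun i hi => by simpa using hxy i hi]
        have e12 : A1 ∩ A2 = {ω | (fun i : Fin (k + m + 1) => ξ i ω) ∈
            {s | ext s ∈ {x : ℕ → ℤ | ip b x 0 k = u ∧ x (k + m) = a}}} := by
          have : A1 ∩ A2 = {ω | (fun i : ℕ => ξ i ω) ∈
            {x : ℕ → ℤ | ip b x 0 k = u ∧ x (k + m) = a}} := rfl
          rw [this]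
          refine past_eq ξ fun x y hxy => ?_
          simp only [mem_setOf_eq]
          rw [ip_congr fun i hi => by simpa using hxy i (by omega), hxy (k + m) (by omega)]
        have e2 : A2 = {ω | (fun i : ℕ => ξ (k + m + i) ω) ∈ {x : ℕ → ℤ | x 0 = a}} := rfl
        have l1 : P A1 * P A2 ≤ C * P (A1 ∩ A2) := by
          have := hlow k {s | ext s ∈ {x : ℕ → ℤ | ip b x 0 k = u}} {x : ℕ → ℤ | x 0 = a}
            (measurableSet_eq_fun (measurable_pi_apply 0) measurable_const)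
          rwa [← e1, ← e2] at this
        have l2 : P (A1 ∩ A2) * P (A3 ∩ G) ≤ C * P ((A1 ∩ A2) ∩ (A3 ∩ G)) := by
          have := hlow (k + m + 1) {s | ext s ∈ {x : ℕ → ℤ | ip b x 0 k = u ∧ x (k + m) = a}} F hF
          rw [← e12, ← hl', ← hF2, ← hA3G] at this
          exact this
        have q1 : Q A3 = (P G)⁻¹ * P (A3 ∩ G) := by
          rw [hQ, ProbabilityTheory.cond_apply hGm, inter_comm]
        have q2 : Q (A1 ∩ (A2 ∩ A3)) = (P G)⁻¹ * P ((A1 ∩ A2) ∩ (A3 ∩ G)) := by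
          rw [hQ, ProbabilityTheory.cond_apply hGm]
          congr 2
          rw [inter_comm, ← inter_assoc, inter_assoc]
        rw [q1, q2]
        have hCC : (((C * C)⁻¹ : ℝ≥0) : ℝ≥0∞) * ((C : ℝ≥0∞) * C) = 1 := by
          rw [← ENNReal.coe_mul, ← ENNReal.coe_mul, inv_mul_cancel₀ (by positivity)]
          rfl
        calc (((C * C)⁻¹ : ℝ≥0) : ℝ≥0∞) * (P A1 * P A2 * ((P G)⁻¹ * P (A3 ∩ G)))
            = (((C * C)⁻¹ : ℝ≥0) : ℝ≥0∞) * (P G)⁻¹ * ((P A1 * P A2) * P (A3 ∩ G)) := by ring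
          _ ≤ (((C * C)⁻¹ : ℝ≥0) : ℝ≥0∞) * (P G)⁻¹ * ((C * P (A1 ∩ A2)) * P (A3 ∩ G)) := by
              gcongr
          _ = (((C * C)⁻¹ : ℝ≥0) : ℝ≥0∞) * (P G)⁻¹ * (C * (P (A1 ∩ A2) * P (A3 ∩ G))) := by
              ring
          _ ≤ (((C * C)⁻¹ : ℝ≥0) : ℝ≥0∞) * (P G)⁻¹ *
                (C * (C * P ((A1 ∩ A2) ∩ (A3 ∩ G)))) := by
              gcongr
          _ = ((((C * C)⁻¹ : ℝ≥0) : ℝ≥0∞) * ((C : ℝ≥0∞) * C)) *
                ((P G)⁻¹ * P ((A1 ∩ A2) ∩ (A3 ∩ G))) := by ring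
          _ = (P G)⁻¹ * P ((A1 ∩ A2) ∩ (A3 ∩ G)) := by rw [hCC, one_mul]) hnd
    rw [hQmap, hrestr] at hc2
    have h3 := hc2 Nᶜ
    simp only [Measure.smul_apply, smul_eq_mul, Measure.restrict_apply hNm.compl,
      compl_inter_self, measure_empty, mul_zero, nonpos_iff_eq_zero, mul_eq_zero] at h3
    rcases h3 with h3 | h3
    · exact hc1.ne' (by exact_mod_cast h3)
    · have h4 : (volume : Measure T) Nᶜ = 1 := by
        rw [prob_compl_eq_one_iff hNm]
        exact hNv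
      rw [h4] at h3
      exact one_ne_zero h3

end Pool.Agent.Zk24.QI
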