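import Mathlib

/-!
A summability criterion and a Bonferroni inequality.
-/

set_option autoImplicit false

open MeasureTheory Filter Topology Set

namespace Pool.Agent.Zk24.QI

lemma sum_bound {e : ℕ → ℝ} (he : ∀ n, 0 ≤ e n) {k0 : ℕ} {C4 : ℝ} (hC4 : 0 ≤ C4)
    (h : ∀ k, k0 ≤ k → ∃ n, k < n ∧ e n ≤ e k / 2 ∧ ∑ i ∈ Finset.Ico k n, e i ≤ C4 * e k)
    (N : ℕ) : ∀ k, k0 ≤ k → ∑ i ∈ Finset.Ico k (k + N), e i ≤ 2 * C4 * e k := by
  induction N using Nat.strong_induction_on with
  | _ N ih =>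
    intro k hk
    obtain ⟨n, hn, h1, h2⟩ := h k hk
    have h0 := he k
    rcases le_or_gt (k + N) n with h3 | h3
    · have h4 : ∑ i ∈ Finset.Ico k (k + N), e i ≤ ∑ i ∈ Finset.Ico k n, e i :=
        Finset.sum_le_sum_of_subset_of_nonneg (Finset.Ico_subset_Ico_right h3)
          fun i _ _ => he i
      nlinarith
    · have h4 := ih (k + N - n) (by omega) n (by omega)
      have h5 : n + (k + N - n) = k + N := by omega
      rw [h5] at h4
      rw [← Finset.sum_Ico_consecutive e hn.le h3.le]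
      nlinarith

lemma summable_of_halving {e : ℕ → ℝ} (he : ∀ n, 0 ≤ e n) {k0 : ℕ} {C4 : ℝ} (hC4 : 0 ≤ C4)
    (h : ∀ k, k0 ≤ k → ∃ n, k < n ∧ e n ≤ e k / 2 ∧ ∑ i ∈ Finset.Ico k n, e i ≤ C4 * e k) :
    Summable e := by
  rw [← summable_nat_add_iff k0]
  refine summable_of_sum_range_le (c := 2 * C4 * e k0) (fun n => he _) fun N => ?_
  have h1 := sum_bound he hC4 h N k0 le_rfl
  rw [Finset.sum_Ico_eq_sum_range] at h1
  have h2 : k0 + N - k0 = N := by omega
  rw [h2] at h1
  refine le_trans (le_of_eq ?_) h1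
  exact Finset.sum_congr rfl fun i _ => by rw [add_comm]

variable {Ω : Type*} [MeasurableSpace Ω]

lemma bonf {P : Measure Ω} [IsProbabilityMeasure P] {A : ℕ → Set Ω}
    (hA : ∀ n, MeasurableSet (A n)) {C : ℝ} (hC : 0 ≤ C)
    (h : ∀ i j, i < j → P.real (A i ∩ A j) ≤ C * (P.real (A i) * P.real (A j))) (J : ℕ) :
    ∑ i ∈ Finset.range J, P.real (A i) - C * (∑ i ∈ Finset.range J, P.real (A i)) ^ 2 ≤
      P.real (⋃ i ∈ Finset.range J, A i) := by
  induction J with
  | zero => simp
  | succ J ih =>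
    set S := ∑ i ∈ Finset.range J, P.real (A i) with hS
    have hS0 : 0 ≤ S := Finset.sum_nonneg fun i _ => measureReal_nonneg
    have he0 : 0 ≤ P.real (A J) := measureReal_nonneg
    set V := ⋃ i ∈ Finset.range J, A i with hV
    have hVm : MeasurableSet V := Finset.measurableSet_biUnion _ fun i _ => hA i
    have h1 : (⋃ i ∈ Finset.range (J + 1), A i) = A J ∪ V := by
      rw [Finset.range_add_one, Finset.set_biUnion_insert]
    have h2 : P.real (A J ∪ V) + P.real (A J ∩ V) = P.real (A J) + P.real V :=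
      measureReal_union_add_inter hVm (measure_ne_top _ _) (measure_ne_top _ _)
    have h3 : P.real (A J ∩ V) ≤ C * (S * P.real (A J)) := by
      have h4 : A J ∩ V = ⋃ i ∈ Finset.range J, (A i ∩ A J) := by
        rw [hV, inter_comm, iUnion₂_inter]
      rw [h4]
      refine (measureReal_biUnion_finset_le _ _).trans ?_
      rw [hS, Finset.sum_mul, Finset.mul_sum]
      exact Finset.sum_le_sum fun i hi => h i J (Finset.mem_range.1 hi)
    rw [h1, Finset.sum_range_succ, ← hS]
    nlinarith [mul_nonneg hC (mul_nonneg hS0 he0), mul_nonneg hC (mul_nonneg he0 he0)]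

end Pool.Agent.Zk24.QI
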