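import Mathlib
import Pool.Agent.Zk24.QI.Purity
import Pool.Agent.Zk24.QI.Real

/-!
Nearly constant digits: the tails are close to fixed points of multiplication by `p`.
-/

set_option autoImplicit false

open MeasureTheory Filter Topology Set
open scoped ENNReal NNReal

namespace Pool.Agent.Zk24.QI

variable {Ω : Type*}

lemma coe_int (n : ℤ) : (((n : ℝ)) : T) = 0 := by
  rw [AddCircle.coe_eq_zero_iff]
  exact ⟨n, by simp⟩

lemma XX_add {b : ℕ → ℕ} (hb : ∀ n, 2 ≤ b n) {ξ : ℕ → Ω → ℤ} {M : ℕ}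
    (hM : ∀ n ω, |ξ n ω| ≤ M) (k j : ℕ) (ω : Ω) :
    XX b ξ (k + j) ω = (bp b k j) • XX b ξ k ω := by
  have h := tv_ip hb (fun n => hM n ω) k j
  unfold XX
  rw [← AddCircle.coe_nsmul, nsmul_eq_mul, h, AddCircle.coe_add, coe_int, zero_add]

variable [MeasurableSpace Ω]

lemma XX_map {b : ℕ → ℕ} (hb : ∀ n, 2 ≤ b n) {ξ : ℕ → Ω → ℤ} (hξ : ∀ n, Measurable (ξ n))
    {M : ℕ} (hM : ∀ n ω, |ξ n ω| ≤ M) {P : Measure Ω} (s k : ℕ) :
    P.map (fun ω => s • XX b ξ k ω) =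
      (P.map (XX b ξ 0)).map (fun x : T => ((s * bp b 0 k : ℕ) : ℤ) • x) := by
  rw [Measure.map_map (Pool.Agent.H847R3.XpXq.meas_zsmul _) (meas_XX hb hξ hM 0)]
  congr 1
  funext ω
  simp only [Function.comp]
  have := XX_add hb hM 0 k ω
  rw [Nat.zero_add] at this
  rw [this, natCast_zsmul, mul_nsmul']

lemma XX_inv {p : ℕ} {b : ℕ → ℕ} (hb : ∀ n, 2 ≤ b n) {ξ : ℕ → Ω → ℤ}
    (hξ : ∀ n, Measurable (ξ n)) {M : ℕ} (hM : ∀ n ω, |ξ n ω| ≤ M) {P : Measure Ω}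
    (hμp : MeasurePreserving (fun x : T => p • x) (P.map (XX b ξ 0)) (P.map (XX b ξ 0)))
    (s k : ℕ) : MeasurePreserving (fun x : T => p • x) (P.map (fun ω => s • XX b ξ k ω))
      (P.map (fun ω => s • XX b ξ k ω)) := by
  rw [XX_map hb hξ hM]
  exact Pool.Agent.H847R3.XpXq.mp_map hμp _

lemma XX_close {b : ℕ → ℕ} (hb : ∀ n, 2 ≤ b n) {ξ : ℕ → Ω → ℤ} {M : ℕ}
    (hM : ∀ n ω, |ξ n ω| ≤ M) {k j : ℕ} {ω ω' : Ω}
    (h : ∀ i, i < j → ξ (k + i) ω = ξ (k + i) ω') :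
    ‖XX b ξ k ω - XX b ξ k ω'‖ ≤ 2 * M / 2 ^ j := by
  have h1 := tv_ip hb (fun n => hM n ω) k j
  have h2 := tv_ip hb (fun n => hM n ω') k j
  have h3 : ip b (fun i => ξ i ω) k j = ip b (fun i => ξ i ω') k j := ip_congr h
  rw [h3] at h1
  have h4 := tv_abs hb (fun n => hM n ω) (k + j)
  have h5 := tv_abs hb (fun n => hM n ω') (k + j)
  have h6 : ((2 : ℝ) ^ j) ≤ (bp b k j : ℝ) := by exact_mod_cast two_pow_le_bp hb k j
  unfold XX
  rw [← AddCircle.coe_sub]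
  refine (norm_coe_le _).trans ?_
  set u := tv b (fun i => ξ i ω) k - tv b (fun i => ξ i ω') k with hu
  have h7 : (bp b k j : ℝ) * u = tv b (fun i => ξ i ω) (k + j) - tv b (fun i => ξ i ω') (k + j) := by
    rw [hu]
    linarith
  have h8 : (bp b k j : ℝ) * |u| ≤ 2 * M := by
    rw [← abs_of_pos (bpR_pos hb k j), ← abs_mul, h7]
    refine (abs_sub _ _).trans ?_
    linarith
  rw [le_div_iff₀ (by positivity)]
  have := abs_nonneg u
  nlinarith

/-- digits nearly constant in the limit: `(p - 1) X_k` tends to `0` in probability -/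
lemma small_prob {p : ℕ} (hp : 2 ≤ p) {b : ℕ → ℕ} (hb : ∀ n, 2 ≤ b n) {ξ : ℕ → Ω → ℤ}
    (hξ : ∀ n, Measurable (ξ n)) {M : ℕ} (hM : ∀ n ω, |ξ n ω| ≤ M) {P : Measure Ω}
    [IsProbabilityMeasure P]
    (hμp : MeasurePreserving (fun x : T => p • x) (P.map (XX b ξ 0)) (P.map (XX b ξ 0)))
    (hd : ∀ η : ℝ, 0 < η → ∀ᶠ n in atTop, ∃ a : ℤ, P.real {ω | ξ n ω ≠ a} ≤ η)
    {δ η : ℝ} (hδ : 0 < δ) (hη : 0 < η) :
    ∀ᶠ k in atTop, P.real {ω | δ ≤ ‖(p - 1) • XX b ξ k ω‖} ≤ η := by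
  obtain ⟨j, hj⟩ : ∃ j : ℕ, (p + 1 : ℝ) * (2 * M / 2 ^ j) < δ := by
    have h1 : Tendsto (fun j : ℕ => (p + 1 : ℝ) * (2 * M / 2 ^ j)) atTop (𝓝 0) := by
      have h2 : Tendsto (fun j : ℕ => ((p + 1 : ℝ) * (2 * M)) * (1 / 2 : ℝ) ^ j) atTop (𝓝 0) := by
        simpa using (tendsto_pow_atTop_nhds_zero_of_lt_one (by norm_num : (0 : ℝ) ≤ 1 / 2)
          (by norm_num)).const_mul ((p + 1 : ℝ) * (2 * M))
      refine h2.congr fun j => ?_
      rw [one_div_pow]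
      ring
    exact (h1.eventually (gt_mem_nhds hδ)).exists
  set η' := min η (1 / 4) with hη'
  have hη'0 : 0 < η' := lt_min hη (by norm_num)
  obtain ⟨N, hN⟩ := eventually_atTop.1 (hd (η' / (j + 1)) (by positivity))
  choose! d hdd using hN
  refine eventually_atTop.2 ⟨N, fun k hk => ?_⟩
  set G : Set Ω := {ω | ∀ i, i < j → ξ (k + i) ω = d (k + i)} with hG
  have hGc : P.real Gᶜ ≤ η' := by
    have h1 : Gᶜ ⊆ ⋃ i ∈ Finset.range j, {ω | ξ (k + i) ω ≠ d (k + i)} := by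
      intro ω hω
      have h2 : ¬ ∀ i, i < j → ξ (k + i) ω = d (k + i) := hω
      push Not at h2
      obtain ⟨i, hi, h3⟩ := h2
      exact mem_iUnion₂.2 ⟨i, Finset.mem_range.2 hi, h3⟩
    refine (measureReal_mono h1 (measure_ne_top _ _)).trans
      ((measureReal_biUnion_finset_le _ _).trans ?_)
    calc ∑ i ∈ Finset.range j, P.real {ω | ξ (k + i) ω ≠ d (k + i)}
        ≤ ∑ i ∈ Finset.range j, η' / (j + 1) :=
          Finset.sum_le_sum fun i _ => hdd (k + i) (by omega)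
      _ = j * (η' / (j + 1)) := by simp
      _ ≤ η' := by
          rw [mul_div_assoc', div_le_iff₀ (by positivity)]
          nlinarith
  have hGm : MeasurableSet G := by
    have : G = ⋂ i ∈ Finset.range j, {ω | ξ (k + i) ω = d (k + i)} := by
      ext ω
      simp [hG]
    rw [this]
    exact Finset.measurableSet_biInter _ fun i _ => measurableSet_eq_fun (hξ _) measurable_const
  have hG1 : 3 / 4 ≤ P.real G := by
    have h1 := probReal_compl_eq_one_sub (μ := P) hGm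
    have h2 : η' ≤ 1 / 4 := min_le_right _ _
    linarith
  have hne : G.Nonempty := by
    by_contra hcon
    rw [Set.not_nonempty_iff_eq_empty] at hcon
    rw [hcon, measureReal_empty] at hG1
    norm_num at hG1
  obtain ⟨ω0, hω0⟩ := hne
  set δ' : ℝ := 2 * M / 2 ^ j with hδ'
  have hcl : ∀ ω ω' : Ω, ω ∈ G → ω' ∈ G → ‖XX b ξ k ω - XX b ξ k ω'‖ ≤ δ' :=
    fun ω ω' h1 h2 => XX_close hb hM fun i hi => (h1 i hi).trans (h2 i hi).symm
  set D : Set T := {x | ‖x - XX b ξ k ω0‖ ≤ δ'} with hD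
  have hDm : MeasurableSet D := by
    have : IsClosed D := isClosed_le (continuous_id.sub continuous_const).norm continuous_const
    exact this.measurableSet
  have hXk := meas_XX hb hξ hM k
  have hinv : MeasurePreserving (fun x : T => p • x) (P.map (XX b ξ k)) (P.map (XX b ξ k)) := by
    have := XX_inv hb hξ hM hμp 1 k
    simpa using this
  have h1 : P.real (XX b ξ k ⁻¹' ((fun x : T => p • x) ⁻¹' D)) = P.real (XX b ξ k ⁻¹' D) := by
    have h2 := hinv.measure_preimage hDm.nullMeasurableSet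
    rw [Measure.map_apply hXk (hinv.measurable hDm), Measure.map_apply hXk hDm] at h2
    rw [Measure.real, Measure.real, h2]
  have h2 : P.real G ≤ P.real (XX b ξ k ⁻¹' D) :=
    measureReal_mono (fun ω hω => hcl ω ω0 hω hω0) (measure_ne_top _ _)
  have hpm : MeasurableSet (XX b ξ k ⁻¹' ((fun x : T => p • x) ⁻¹' D)) :=
    hXk (hinv.measurable hDm)
  have h3 : (XX b ξ k ⁻¹' ((fun x : T => p • x) ⁻¹' D) ∩ G).Nonempty := by
    by_contra hcon
    rw [Set.not_nonempty_iff_eq_empty] at hcon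
    have h4 := measureReal_union_add_inter (μ := P)
      (s := XX b ξ k ⁻¹' ((fun x : T => p • x) ⁻¹' D)) hGm (measure_ne_top _ _)
      (measure_ne_top _ _)
    rw [hcon, measureReal_empty] at h4
    have h5 : P.real (XX b ξ k ⁻¹' ((fun x : T => p • x) ⁻¹' D) ∪ G) ≤ 1 := measureReal_le_one
    linarith
  obtain ⟨ω1, hω1, hω1G⟩ := h3
  have h4 : ‖p • XX b ξ k ω1 - XX b ξ k ω0‖ ≤ δ' := hω1
  have h5 : ‖(p - 1) • XX b ξ k ω1‖ ≤ 2 * δ' := by
    have e : (p - 1) • XX b ξ k ω1 = (p • XX b ξ k ω1 - XX b ξ k ω0)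
        + (XX b ξ k ω0 - XX b ξ k ω1) := by
      have : p • XX b ξ k ω1 = (p - 1) • XX b ξ k ω1 + XX b ξ k ω1 := by
        conv_lhs => rw [← Nat.sub_add_cancel (show 1 ≤ p by omega)]
        rw [add_nsmul, one_nsmul]
      rw [this]
      abel
    rw [e]
    refine (norm_add_le _ _).trans ?_
    have := hcl ω0 ω1 hω0 hω1G
    linarith
  refine le_trans (measureReal_mono ?_ (measure_ne_top _ _)) (hGc.trans (min_le_left _ _))
  intro ω hω hωG
  have hω : δ ≤ ‖(p - 1) • XX b ξ k ω‖ := hω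
  have h6 : ‖(p - 1) • XX b ξ k ω‖ ≤ (p + 1) * δ' := by
    have e : (p - 1) • XX b ξ k ω = (p - 1) • XX b ξ k ω1
        + (p - 1) • (XX b ξ k ω - XX b ξ k ω1) := by
      rw [nsmul_sub]
      abel
    rw [e]
    refine (norm_add_le _ _).trans ?_
    have h7 : ‖(p - 1) • (XX b ξ k ω - XX b ξ k ω1)‖ ≤ ((p - 1 : ℕ) : ℝ) *
        ‖XX b ξ k ω - XX b ξ k ω1‖ := norm_nsmul_le
    have h8 := hcl ω ω1 hωG hω1G
    have h9 : ((p - 1 : ℕ) : ℝ) = (p : ℝ) - 1 := by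
      rw [Nat.cast_sub (by omega)]
      simp
    rw [h9] at h7
    have h10 : (0 : ℝ) ≤ (p : ℝ) - 1 := by
      have : (2 : ℝ) ≤ p := by exact_mod_cast hp
      linarith
    nlinarith [mul_le_mul_of_nonneg_left h8 h10]
  linarith

end Pool.Agent.Zk24.QI
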