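import Mathlib
import Pool.Agent.Zk24.QI.DegA
import Pool.Agent.Results.MP_96e181_an.NonConcentration

/-!
Nearly constant digits: the sum of the digits is a torsion point almost surely.
-/

set_option autoImplicit false

open MeasureTheory Filter Topology Set
open scoped ENNReal NNReal

namespace Pool.Agent.Zk24.QI

/-- the tail after `c` digits, multiplied by `s` -/
noncomputable def Yh (b : ℕ → ℕ) (s c n : ℕ) (x : ℕ → ℤ) : T :=
  s • (((ip b x n c : ℝ) / (bp b n c : ℝ) : ℝ) : T)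

lemma Yh_close {Ω : Type*} {b : ℕ → ℕ} (hb : ∀ n, 2 ≤ b n) {ξ : ℕ → Ω → ℤ} {M : ℕ}
    (hM : ∀ n ω, |ξ n ω| ≤ M) (s c n : ℕ) (ω : Ω) :
    ‖s • XX b ξ n ω - Yh b s c n (fun i => ξ i ω)‖ ≤ s * (M / 2 ^ c) := by
  unfold Yh XX
  rw [← nsmul_sub, ← AddCircle.coe_sub]
  refine norm_nsmul_le.trans ?_
  refine mul_le_mul_of_nonneg_left ((norm_coe_le _).trans ?_) (by positivity)
  have h1 := tv_ip hb (fun n => hM n ω) n c
  have h4 := tv_abs hb (fun n => hM n ω) (n + c)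
  have h5 := bpR_pos hb n c
  have h6 : ((2 : ℝ) ^ c) ≤ (bp b n c : ℝ) := by exact_mod_cast two_pow_le_bp hb n c
  have h7 : tv b (fun i => ξ i ω) n - (ip b (fun i => ξ i ω) n c : ℝ) / (bp b n c : ℝ)
      = tv b (fun i => ξ i ω) (n + c) / (bp b n c : ℝ) := by
    field_simp
    linarith
  rw [h7, abs_div, abs_of_pos h5]
  gcongr

lemma meas_Yh (b : ℕ → ℕ) (s c n : ℕ) : Measurable (Yh b s c n) := by
  refine (Pool.Agent.H847R3.XpXq.meas_smul s).comp (meas_coe.comp (Measurable.div_const ?_ _))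
  exact (measurable_of_countable (fun a : ℤ => (a : ℝ))).comp
    (meas_ip (Ω := ℕ → ℤ) (ξ := fun i x => x i) (fun i => measurable_pi_apply i) n c)

lemma Yh_congr {b : ℕ → ℕ} {s c n : ℕ} {x y : ℕ → ℤ} (h : ∀ i, i < c → x (n + i) = y (n + i)) :
    Yh b s c n x = Yh b s c n y := by
  unfold Yh
  rw [ip_congr h]

variable {Ω : Type*} [MeasurableSpace Ω]

lemma upp_gen {P : Measure Ω} {ξ : ℕ → Ω → ℤ} {m : ℕ} {C : ℝ≥0} (hupp : Upp P ξ m C) {k : ℕ}
    {A D : Set (ℕ → ℤ)}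
    (hA : ∀ x y : ℕ → ℤ, (∀ i, i < k → x i = y i) → (x ∈ A ↔ y ∈ A)) (hD : MeasurableSet D)
    (hD2 : ∀ x y : ℕ → ℤ, (∀ i, k + m ≤ i → x i = y i) → (x ∈ D ↔ y ∈ D)) :
    P ({ω | (fun i : ℕ => ξ i ω) ∈ A} ∩ {ω | (fun i : ℕ => ξ i ω) ∈ D}) ≤
      C * (P {ω | (fun i : ℕ => ξ i ω) ∈ A} * P {ω | (fun i : ℕ => ξ i ω) ∈ D}) := by
  have hm : Measurable fun (z : ℕ → ℤ) (i : ℕ) => if i < k + m then (0 : ℤ) else z (i - (k + m)) := by
    refine measurable_pi_lambda _ fun i => ?_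
    by_cases h : i < k + m
    · simp only [h, if_true]
      exact measurable_const
    · simp only [h, if_false]
      exact measurable_pi_apply _
  have e2 : {ω | (fun i : ℕ => ξ i ω) ∈ D} = {ω | (fun i : ℕ => ξ (k + m + i) ω) ∈
      (fun (z : ℕ → ℤ) (i : ℕ) => if i < k + m then (0 : ℤ) else z (i - (k + m))) ⁻¹' D} := by
    ext ω
    change (fun i : ℕ => ξ i ω) ∈ D ↔
      (fun i : ℕ => if i < k + m then (0 : ℤ) else ξ (k + m + (i - (k + m))) ω) ∈ D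
    refine hD2 _ _ fun i hi => ?_
    rw [if_neg (by omega)]
    congr 1
    omega
  have := hupp k {s | ext s ∈ A} _ (hm hD)
  rw [← e2, ← past_eq ξ hA] at this
  exact this

/-- events about the truncated tails that are far apart are quasi-independent -/
lemma upp_pair {P : Measure Ω} [IsProbabilityMeasure P] {ξ : ℕ → Ω → ℤ} {m : ℕ} {C : ℝ≥0}
    (hupp : Upp P ξ m C) (b : ℕ → ℕ) (s c : ℕ) (r : ℝ) {n n' : ℕ} (hn : n + c + m ≤ n') :
    P.real ({ω | r ≤ ‖Yh b s c n (fun i => ξ i ω)‖} ∩ {ω | r ≤ ‖Yh b s c n' (fun i => ξ i ω)‖})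
      ≤ C * (P.real {ω | r ≤ ‖Yh b s c n (fun i => ξ i ω)‖} *
        P.real {ω | r ≤ ‖Yh b s c n' (fun i => ξ i ω)‖}) := by
  have h := upp_gen hupp (k := n + c) (A := {x | r ≤ ‖Yh b s c n x‖})
    (D := {x | r ≤ ‖Yh b s c n' x‖}) (fun x y hxy => by
      change r ≤ ‖Yh b s c n x‖ ↔ r ≤ ‖Yh b s c n y‖
      rw [Yh_congr fun i hi => hxy (n + i) (by omega)])
    (measurableSet_le measurable_const (meas_Yh b s c n').norm) (fun x y hxy => by
      change r ≤ ‖Yh b s c n' x‖ ↔ r ≤ ‖Yh b s c n' y‖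
      rw [Yh_congr fun i hi => hxy (n' + i) (by omega)])
  have h2 := ENNReal.toReal_mono (by finiteness) h
  rw [ENNReal.toReal_mul, ENNReal.toReal_mul] at h2
  exact h2

lemma norm_smul_small {s : ℕ} {y : T} (h : s * ‖y‖ ≤ 1 / 2) : ‖s • y‖ = s * ‖y‖ := by
  obtain ⟨r, rfl, hr⟩ := Pool.Agent.H847R3.XpXq.exists_rep_norm y
  rw [← AddCircle.coe_nsmul, nsmul_eq_mul]
  rw [← hr] at h ⊢
  have h1 : |(s : ℝ) * r| = s * |r| := by rw [abs_mul, Nat.abs_cast]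
  rw [← h1]
  refine (AddCircle.norm_coe_eq_abs_iff (1 : ℝ) one_ne_zero).2 ?_
  rw [h1, abs_one]
  exact h

/-- an orbit that stays near `0` is eventually at `0` -/
lemma zero_of_small {b : ℕ → ℕ} {B : ℕ} (hb : ∀ n, 2 ≤ b n) (hB : ∀ n, b n ≤ B) {y : ℕ → T}
    (hy : ∀ n, y (n + 1) = b n • y n) {n0 : ℕ} (h : ∀ n, n0 ≤ n → ‖y n‖ ≤ 1 / (2 * B)) :
    y n0 = 0 := by
  by_contra hne
  have hB0 : (0 : ℝ) < B := by
    have h1 := hb 0
    have h2 := hB 0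
    exact_mod_cast (by omega : 0 < B)
  have hpos : 0 < ‖y n0‖ := norm_pos_iff.2 hne
  have hg : ∀ j : ℕ, 2 ^ j * ‖y n0‖ ≤ ‖y (n0 + j)‖ := by
    intro j
    induction j with
    | zero => simp
    | succ j ih =>
      have h1 := h (n0 + j) (by omega)
      have h2 : (b (n0 + j) : ℝ) ≤ B := by exact_mod_cast hB _
      have h3 : (2 : ℝ) ≤ b (n0 + j) := by exact_mod_cast hb _
      have h4 : (b (n0 + j) : ℝ) * ‖y (n0 + j)‖ ≤ 1 / 2 := by
        calc (b (n0 + j) : ℝ) * ‖y (n0 + j)‖ ≤ B * (1 / (2 * B)) := by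
              gcongr
          _ = 1 / 2 := by field_simp
      rw [← add_assoc, hy, norm_smul_small h4, pow_succ]
      have := norm_nonneg (y (n0 + j))
      nlinarith
  obtain ⟨j, hj⟩ := pow_unbounded_of_one_lt (1 / ‖y n0‖) (by norm_num : (1 : ℝ) < 2)
  have h1 := hg j
  have h2 : ‖y (n0 + j)‖ ≤ 1 / 2 := by
    simpa using AddCircle.norm_le_half_period (1 : ℝ) (x := y (n0 + j)) one_ne_zero
  rw [div_lt_iff₀ hpos] at hj
  linarith

end Pool.Agent.Zk24.QI
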