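import Mathlib
import Pool.Agent.Zk24.QI.DegB

/-!
Nearly constant digits: the sum of the digits is a torsion point almost surely.
-/

set_option autoImplicit false

open MeasureTheory Filter Topology Set
open scoped ENNReal NNReal

namespace Pool.Agent.Zk24.QI

/-- growth of the bound: there is `J` with `4 C (τ (a J + 1)) ^ κ ≤ J` -/
lemma exists_J {κ C τ : ℝ} (hκ : κ < 1) (hC : 0 ≤ C) (hτ : 1 ≤ τ) {a : ℕ} (ha : 1 ≤ a) :
    ∃ J : ℕ, 1 ≤ J ∧ 4 * (C * (τ * ((a * J : ℕ) + 1)) ^ κ) ≤ J := by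
  have h1 : Tendsto (fun J : ℕ => (τ * ((a * J : ℕ) + 1)) ^ (-(1 - κ))) atTop (𝓝 0) := by
    refine (tendsto_rpow_neg_atTop (by linarith : 0 < 1 - κ)).comp ?_
    refine tendsto_atTop_mono (f := fun J : ℕ => (J : ℝ)) (fun J => ?_) tendsto_natCast_atTop_atTop
    have h2 : (J : ℝ) ≤ ((a * J : ℕ) : ℝ) := by
      exact_mod_cast Nat.le_mul_of_pos_left J (by omega)
    have h3 : (0 : ℝ) ≤ J := by positivity
    nlinarith
  have h2 : Tendsto (fun J : ℕ => (4 * C * τ * (a + 1)) * (τ * ((a * J : ℕ) + 1)) ^ (-(1 - κ)))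
      atTop (𝓝 0) := by
    simpa using h1.const_mul (4 * C * τ * (a + 1))
  obtain ⟨J, hJ1, hJ2⟩ := ((h2.eventually (gt_mem_nhds one_pos)).and
    (eventually_ge_atTop 1)).exists
  refine ⟨J, hJ2, ?_⟩
  set u : ℝ := τ * ((a * J : ℕ) + 1) with hu
  have hu0 : 0 < u := by positivity
  have e1 : u ^ κ = u * u ^ (-(1 - κ)) := by
    have e2 : κ = 1 + (-(1 - κ)) := by ring
    conv_lhs => rw [e2, Real.rpow_add hu0, Real.rpow_one]
  have hJR : (1 : ℝ) ≤ J := by exact_mod_cast hJ2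
  have h3 : u ≤ τ * (a + 1) * J := by
    rw [hu]
    push_cast
    nlinarith
  have h4 : 0 ≤ u ^ (-(1 - κ)) := by positivity
  rw [e1]
  calc 4 * (C * (u * u ^ (-(1 - κ)))) ≤ 4 * (C * ((τ * (a + 1) * J) * u ^ (-(1 - κ)))) := by
        gcongr
    _ = J * (4 * C * τ * (a + 1) * u ^ (-(1 - κ))) := by ring
    _ ≤ J * 1 := by gcongr
    _ = J := mul_one _

variable {Ω : Type*} [MeasurableSpace Ω]

/-- **Nearly constant digits.** -/
theorem deg {p q : ℕ} (hp : 2 ≤ p) (hq : 2 ≤ q)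
    (hirr : Irrational (Real.log p / Real.log q))
    {b : ℕ → ℕ} {B : ℕ} (hb : ∀ n, 2 ≤ b n) (hB : ∀ n, b n ≤ B) {ξ : ℕ → Ω → ℤ}
    (hξ : ∀ n, Measurable (ξ n)) {M : ℕ} (hM : ∀ n ω, |ξ n ω| ≤ M) {m : ℕ}
    {P : Measure Ω} [IsProbabilityMeasure P] {C : ℝ≥0}
    (hμp : MeasurePreserving (fun x : T => p • x) (P.map (XX b ξ 0)) (P.map (XX b ξ 0)))
    (hμq : MeasurePreserving (fun x : T => q • x) (P.map (XX b ξ 0)) (P.map (XX b ξ 0)))
    (hupp : Upp P ξ m C)
    (hd : ∀ η : ℝ, 0 < η → ∀ᶠ n in atTop, ∃ a : ℤ, P.real {ω | ξ n ω ≠ a} ≤ η) :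
    ∀ᵐ ω ∂P, IsOfFinAddOrder (XX b ξ 0 ω) := by
  obtain ⟨κ, hκ, -, C0, hNC⟩ :=
    Pool.Agent.Results.MP_96e181_an.NonConcentration.result p q hp hq hirr
  have hB2 : 2 ≤ B := (hb 0).trans (hB 0)
  have hB2R : (2 : ℝ) ≤ B := by exact_mod_cast hB2
  set ρ : ℝ := 1 / (1 + max (p : ℝ) (q : ℝ)) with hρ
  have hρ0 : 0 < ρ := by positivity
  set ρ1 : ℝ := min ρ (1 / (2 * B)) / 2 with hρ1
  have hρ10 : 0 < ρ1 := by positivity
  have hρ1a : 2 * ρ1 ≤ ρ := by
    rw [hρ1]
    have := min_le_left ρ (1 / (2 * B : ℝ))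
    linarith
  have hρ1b : 2 * ρ1 ≤ 1 / (2 * B) := by
    rw [hρ1]
    have := min_le_right ρ (1 / (2 * B : ℝ))
    linarith
  have hρ1c : ρ1 ≤ 1 / 8 := by
    have h1 : (1 : ℝ) / (2 * B) ≤ 1 / 4 := by
      apply one_div_le_one_div_of_le (by norm_num)
      linarith
    linarith
  set s : ℕ := p - 1 with hs
  -- truncation length
  obtain ⟨c, hc⟩ : ∃ c : ℕ, (s : ℝ) * (M / 2 ^ c) < ρ1 / 2 := by
    have h1 : Tendsto (fun j : ℕ => (s : ℝ) * (M / 2 ^ j)) atTop (𝓝 0) := by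
      have h2 : Tendsto (fun j : ℕ => ((s : ℝ) * M) * (1 / 2 : ℝ) ^ j) atTop (𝓝 0) := by
        simpa using (tendsto_pow_atTop_nhds_zero_of_lt_one (by norm_num : (0 : ℝ) ≤ 1 / 2)
          (by norm_num)).const_mul ((s : ℝ) * M)
      refine h2.congr fun j => ?_
      rw [one_div_pow]
      ring
    exact (h1.eventually (gt_mem_nhds (by positivity))).exists
  set Y : ℕ → Ω → T := fun k ω => s • XX b ξ k ω with hY
  have hYm : ∀ k, Measurable (Y k) := fun k =>
    (Pool.Agent.H847R3.XpXq.meas_smul s).comp (meas_XX hb hξ hM k)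
  have hYadd : ∀ k j ω, Y (k + j) ω = bp b k j • Y k ω := by
    intro k j ω
    simp only [hY]
    rw [XX_add hb hM k j ω, smul_comm]
  set E : ℕ → Set Ω := fun n => {ω | 3 / 2 * ρ1 ≤ ‖Yh b s c n (fun i => ξ i ω)‖} with hE
  have hseq : Measurable fun ω (i : ℕ) => ξ i ω := measurable_pi_lambda _ hξ
  have hEm : ∀ n, MeasurableSet (E n) := fun n =>
    measurableSet_le measurable_const (((meas_Yh b s c n).comp hseq).norm)
  have hE1 : ∀ n ω, ω ∈ E n → ρ1 ≤ ‖Y n ω‖ := by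
    intro n ω hω
    have h1 : 3 / 2 * ρ1 ≤ ‖Yh b s c n (fun i => ξ i ω)‖ := hω
    have h2 := Yh_close hb hM s c n ω
    have h3 := norm_sub_norm_le (Yh b s c n (fun i => ξ i ω)) (s • XX b ξ n ω)
    rw [norm_sub_rev] at h3
    change ρ1 ≤ ‖s • XX b ξ n ω‖
    linarith
  have hE2 : ∀ n ω, 2 * ρ1 ≤ ‖Y n ω‖ → ω ∈ E n := by
    intro n ω h1
    change 3 / 2 * ρ1 ≤ ‖Yh b s c n (fun i => ξ i ω)‖
    have h1 : 2 * ρ1 ≤ ‖s • XX b ξ n ω‖ := h1
    have h2 := Yh_close hb hM s c n ω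
    have h3 := norm_sub_norm_le (s • XX b ξ n ω) (Yh b s c n (fun i => ξ i ω))
    linarith
  set e : ℕ → ℝ := fun n => P.real (E n) with he
  have he0 : ∀ n, 0 ≤ e n := fun n => measureReal_nonneg
  have hsmall : ∀ η : ℝ, 0 < η → ∀ᶠ n in atTop, e n ≤ η := by
    intro η hη
    filter_upwards [small_prob hp hb hξ hM hμp hd hρ10 hη] with n hn
    exact (measureReal_mono (hE1 n) (measure_ne_top _ _)).trans hn
  -- the maximal inequality from non-concentration
  set τ : ℝ := Real.log (B / ρ1) with hτ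
  have hτ1 : 1 ≤ τ := by
    have h1 : Real.exp 1 ≤ B / ρ1 := by
      rw [le_div_iff₀ hρ10]
      have := Real.exp_one_lt_d9
      nlinarith
    rw [hτ, Real.le_log_iff_exp_le (by positivity)]
    exact h1
  set Z : ℕ → ℝ := fun L => |C0| * (τ * ((L : ℝ) + 1)) ^ κ with hZ
  have hZ0 : ∀ L, 0 ≤ Z L := fun L => by positivity
  have hcov : ∀ k L, P.real {ω | ∃ i, i ≤ L ∧ ω ∈ E (k + i)} ≤ Z L * e k := by
    intro k L
    set t : ℝ := τ * ((L : ℝ) + 1) with ht
    have ht1 : 1 ≤ t := by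
      have : (0 : ℝ) ≤ L := by positivity
      rw [ht]
      nlinarith
    have hexp : Real.exp (-t) * (B : ℝ) ^ L ≤ ρ1 := by
      have h1 : Real.exp (-t) = (ρ1 / B) ^ (L + 1) := by
        rw [ht, hτ, ← Real.exp_log (show (0 : ℝ) < (ρ1 / B) ^ (L + 1) by positivity), Real.log_pow,
          Real.log_div hρ10.ne' (by positivity), Real.log_div (by positivity) hρ10.ne']
        congr 1
        push_cast
        ring
      rw [h1, div_pow, pow_succ, pow_succ]
      have h2 : ρ1 ^ L ≤ 1 := pow_le_one₀ hρ10.le (by linarith)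
      have h3 : (1 : ℝ) ≤ B := by linarith
      have h4 : (0 : ℝ) < (B : ℝ) ^ L := by positivity
      rw [div_mul_eq_mul_div, div_le_iff₀ (by positivity)]
      calc ρ1 ^ L * ρ1 * (B : ℝ) ^ L ≤ 1 * ρ1 * (B : ℝ) ^ L := by gcongr
        _ ≤ ρ1 * ((B : ℝ) ^ L * B) := by nlinarith [mul_pos hρ10 h4]
    have iP : IsProbabilityMeasure (P.map (Y k)) :=
      Measure.isProbabilityMeasure_map (hYm k).aemeasurable
    have hnc := hNC (P.map (Y k)) iP (XX_inv hb hξ hM hμp s k) (XX_inv hb hξ hM hμq s k) t ht1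
    have hm1 : MeasurableSet {x : T | Real.exp (-t) ≤ ‖x‖} :=
      measurableSet_le measurable_const measurable_norm
    have hm2 : MeasurableSet {x : T | ρ ≤ ‖x‖} :=
      measurableSet_le measurable_const measurable_norm
    have hr1 : (P.map (Y k)).real {x : T | Real.exp (-t) ≤ ‖x‖}
        = P.real {ω | Real.exp (-t) ≤ ‖Y k ω‖} := by
      rw [measureReal_def, Measure.map_apply (hYm k) hm1]
      rfl
    have hr2 : (P.map (Y k)).real {x : T | ρ ≤ ‖x‖} = P.real {ω | ρ ≤ ‖Y k ω‖} := by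
      rw [measureReal_def, Measure.map_apply (hYm k) hm2]
      rfl
    have hnc : P.real {ω | Real.exp (-t) ≤ ‖Y k ω‖} ≤ C0 * t ^ κ * P.real {ω | ρ ≤ ‖Y k ω‖} := by
      rw [← hr1, ← hr2]
      exact hnc
    have h1 : P.real {ω | ρ ≤ ‖Y k ω‖} ≤ e k :=
      measureReal_mono (fun ω hω => hE2 k ω (hρ1a.trans hω)) (measure_ne_top _ _)
    have h2 : P.real {ω | ∃ i, i ≤ L ∧ ω ∈ E (k + i)} ≤ P.real {ω | Real.exp (-t) ≤ ‖Y k ω‖} := by
      refine measureReal_mono ?_ (measure_ne_top _ _)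
      rintro ω ⟨i, hi, hω⟩
      have h3 := hE1 _ _ hω
      rw [hYadd] at h3
      have h4 : ‖bp b k i • Y k ω‖ ≤ (bp b k i : ℝ) * ‖Y k ω‖ := norm_nsmul_le
      have h5 : (bp b k i : ℝ) ≤ (B : ℝ) ^ L := by
        have h6 : bp b k i ≤ B ^ i := bp_le_pow hB k i
        have h7 : B ^ i ≤ B ^ L := Nat.pow_le_pow_right (by omega) hi
        exact_mod_cast h6.trans h7
      change Real.exp (-t) ≤ ‖Y k ω‖
      have h8 : Real.exp (-t) * (B : ℝ) ^ L ≤ ‖Y k ω‖ * (B : ℝ) ^ L := by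
        have := norm_nonneg (Y k ω)
        nlinarith
      exact le_of_mul_le_mul_right h8 (by positivity)
    have h3 : 0 ≤ t ^ κ := by positivity
    have h4 : C0 * t ^ κ ≤ |C0| * t ^ κ := mul_le_mul_of_nonneg_right (le_abs_self _) h3
    calc _ ≤ _ := h2
      _ ≤ _ := hnc
      _ ≤ |C0| * t ^ κ * P.real {ω | ρ ≤ ‖Y k ω‖} :=
        mul_le_mul_of_nonneg_right h4 measureReal_nonneg
      _ ≤ |C0| * t ^ κ * e k := mul_le_mul_of_nonneg_left h1 (by positivity)
  -- choice of the window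
  set a : ℕ := c + m + 1 with ha
  obtain ⟨J, hJ1, hJ2⟩ := exists_J hκ (abs_nonneg C0) hτ1 (show 1 ≤ a by omega)
  have hJ2 : 4 * Z (a * J) ≤ J := hJ2
  have hJR : (1 : ℝ) ≤ J := by exact_mod_cast hJ1
  obtain ⟨k0, hk0⟩ := eventually_atTop.1 (hsmall (1 / (2 * ((C : ℝ) + 1) * J)) (by positivity))
  have hsum : Summable e := by
    refine summable_of_halving he0 (k0 := k0) (C4 := (a * J : ℕ) * Z (a * J))
      (by have := hZ0 (a * J); positivity) fun k hk => ?_
    -- the sum over a residue class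
    set A : ℕ → Set Ω := fun i => E (k + a * (i + 1)) with hA
    set S : ℝ := ∑ i ∈ Finset.range J, P.real (A i) with hS
    have hS0 : 0 ≤ S := Finset.sum_nonneg fun i _ => measureReal_nonneg
    have hb1 := bonf (P := P) (A := A) (fun n => hEm _) (C := (C : ℝ)) C.2 (fun i j hij => by
      refine upp_pair hupp b s c (3 / 2 * ρ1) ?_
      have h1 : a * (i + 1) + a ≤ a * (j + 1) := by
        have : a * (i + 1) + a = a * (i + 1 + 1) := by ring
        rw [this]
        exact Nat.mul_le_mul_left a (by omega)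
      omega) J
    rw [← hS] at hb1
    have hb2 : P.real (⋃ i ∈ Finset.range J, A i) ≤ Z (a * J) * e k := by
      refine le_trans (measureReal_mono ?_ (measure_ne_top _ _)) (hcov k (a * J))
      intro ω hω
      obtain ⟨i, hi, h1⟩ := mem_iUnion₂.1 hω
      have hi := Finset.mem_range.1 hi
      exact ⟨a * (i + 1), Nat.mul_le_mul_left a (by omega), h1⟩
    have hb3 : (C : ℝ) * S ≤ 1 / 2 := by
      have h1 : S ≤ ∑ i ∈ Finset.range J, 1 / (2 * ((C : ℝ) + 1) * J) :=
        Finset.sum_le_sum fun i _ => hk0 _ (by omega)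
      rw [Finset.sum_const, Finset.card_range, nsmul_eq_mul] at h1
      have h2 : (J : ℝ) * (1 / (2 * ((C : ℝ) + 1) * J)) = 1 / (2 * ((C : ℝ) + 1)) := by
        field_simp
      rw [h2] at h1
      have hC0 : (0 : ℝ) ≤ C := C.2
      calc (C : ℝ) * S ≤ (C : ℝ) * (1 / (2 * ((C : ℝ) + 1))) := by gcongr
        _ ≤ 1 / 2 := by
          rw [mul_one_div, div_le_div_iff₀ (by positivity) (by norm_num)]
          nlinarith
    have hb4 : S ≤ 2 * (Z (a * J) * e k) := by nlinarith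
    have hex : ∃ i, i < J ∧ e (k + a * (i + 1)) ≤ e k / 2 := by
      by_contra hcon
      push Not at hcon
      have h1 : ∑ i ∈ Finset.range J, (e k / 2) < S := by
        refine Finset.sum_lt_sum_of_nonempty ?_ fun i hi => hcon i (Finset.mem_range.1 hi)
        exact ⟨0, Finset.mem_range.2 (by omega)⟩
      rw [Finset.sum_const, Finset.card_range, nsmul_eq_mul] at h1
      have h2 := he0 k
      nlinarith
    obtain ⟨i, hi, hi2⟩ := hex
    have hai : a * (i + 1) ≤ a * J := Nat.mul_le_mul_left a (by omega)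
    refine ⟨k + a * (i + 1), ?_, hi2, ?_⟩
    · have : 0 < a * (i + 1) := Nat.mul_pos (by omega) (by omega)
      omega
    · calc ∑ l ∈ Finset.Ico k (k + a * (i + 1)), e l
          ≤ ∑ l ∈ Finset.Ico k (k + a * (i + 1)), Z (a * J) * e k := by
            refine Finset.sum_le_sum fun l hl => ?_
            obtain ⟨hl1, hl2⟩ := Finset.mem_Ico.1 hl
            refine le_trans (measureReal_mono ?_ (measure_ne_top _ _)) (hcov k (a * J))
            intro ω hω
            refine ⟨l - k, by omega, ?_⟩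
            have : k + (l - k) = l := by omega
            rw [this]
            exact hω
        _ = ((a * (i + 1) : ℕ) : ℝ) * (Z (a * J) * e k) := by
            rw [Finset.sum_const, Nat.card_Ico, nsmul_eq_mul]
            congr 2
            omega
        _ ≤ ((a * J : ℕ) : ℝ) * (Z (a * J) * e k) := by
            have h1 : ((a * (i + 1) : ℕ) : ℝ) ≤ ((a * J : ℕ) : ℝ) := by exact_mod_cast hai
            have h2 : 0 ≤ Z (a * J) * e k := mul_nonneg (hZ0 _) (he0 _)
            exact mul_le_mul_of_nonneg_right h1 h2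
        _ = _ := by ring
  -- Borel-Cantelli
  have hBC : ∑' n, P (E n) ≠ ⊤ := by
    have h1 := hsum.tsum_ofReal_ne_top
    have h2 : (fun n => P (E n)) = fun n => ENNReal.ofReal (e n) := by
      funext n
      exact (ofReal_measureReal (measure_ne_top _ _)).symm
    rw [h2]
    exact h1
  filter_upwards [ae_eventually_notMem hBC] with ω hω
  obtain ⟨n0, hn0⟩ := eventually_atTop.1 hω
  have h1 : Y n0 ω = 0 := by
    refine zero_of_small hb hB (y := fun n => Y n ω) (fun n => ?_) fun n hn => ?_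
    · rw [hYadd]
      simp [bp]
    · have h2 := hn0 n hn
      have h3 : ‖Y n ω‖ < 2 * ρ1 := by
        by_contra h4
        exact h2 (hE2 n ω (not_lt.1 h4))
      exact (h3.trans_le hρ1b).le
  rw [isOfFinAddOrder_iff_nsmul_eq_zero]
  refine ⟨s * bp b 0 n0, Nat.mul_pos (by omega) (bp_pos hb _ _), ?_⟩
  have h2 := XX_add hb hM 0 n0 ω
  rw [Nat.zero_add] at h2
  rw [mul_nsmul', ← h2]
  exact h1

end Pool.Agent.Zk24.QI
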