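import Mathlib
import Pool.Agent.Zk24.QI.DegC

/-!
Quasi-independent digits: the dichotomy.
-/

set_option autoImplicit false

open MeasureTheory Filter Topology Set
open scoped ENNReal NNReal

namespace Pool.Agent.Zk24.QI

variable {Ω : Type*} [MeasurableSpace Ω]

lemma dich {ξ : ℕ → Ω → ℤ} {M : ℕ} (hM : ∀ n ω, |ξ n ω| ≤ M) {P : Measure Ω}
    [IsProbabilityMeasure P]
    (h : ∀ ε : ℝ≥0, 0 < ε → ¬ ∃ᶠ n in atTop, ∃ a a' : ℤ, a ≠ a' ∧
      (ε : ℝ≥0∞) ≤ P {ω | ξ n ω = a} ∧ (ε : ℝ≥0∞) ≤ P {ω | ξ n ω = a'}) :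
    ∀ η : ℝ, 0 < η → ∀ᶠ n in atTop, ∃ a : ℤ, P.real {ω | ξ n ω ≠ a} ≤ η := by
  intro η hη
  set s : Finset ℤ := Finset.Icc (-(M : ℤ)) M with hs
  have hcard : (s.card : ℝ) = 2 * M + 1 := by
    have h1 : s.card = 2 * M + 1 := by
      rw [hs, Int.card_Icc]
      omega
    rw [h1]
    push_cast
    ring
  set K : ℝ := 2 * M + 1 with hK
  have hK0 : 0 < K := by positivity
  set ε : ℝ≥0 := ⟨min (1 / K) (η / K), by positivity⟩ with hε
  have hεR : (ε : ℝ) = min (1 / K) (η / K) := rfl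
  have hε0 : 0 < ε := by
    rw [← NNReal.coe_pos, hεR]
    positivity
  have h1 := h ε hε0
  rw [not_frequently] at h1
  filter_upwards [h1] with n hn
  have hmem : ∀ ω, ξ n ω ∈ s := fun ω => by
    rw [hs, Finset.mem_Icc]
    exact abs_le.1 (hM n ω)
  have hne : s.Nonempty := ⟨0, by rw [hs, Finset.mem_Icc]; constructor <;> simp⟩
  obtain ⟨a, ha, hmax⟩ := Finset.exists_max_image s (fun a => P.real {ω | ξ n ω = a}) hne
  have hconv : ∀ a0 : ℤ, (ε : ℝ) ≤ P.real {ω | ξ n ω = a0} → (ε : ℝ≥0∞) ≤ P {ω | ξ n ω = a0} := by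
    intro a0 h2
    rw [← ENNReal.ofReal_coe_nnreal]
    exact (ENNReal.ofReal_le_iff_le_toReal (measure_ne_top _ _)).2 h2
  have hge : (ε : ℝ) ≤ P.real {ω | ξ n ω = a} := by
    have h2 : (1 : ℝ) ≤ ∑ a' ∈ s, P.real {ω | ξ n ω = a'} := by
      have h3 : (univ : Set Ω) ⊆ ⋃ a' ∈ s, {ω | ξ n ω = a'} := fun ω _ =>
        mem_iUnion₂.2 ⟨ξ n ω, hmem ω, rfl⟩
      have h4 := (measureReal_mono h3 (measure_ne_top _ _)).trans
        (measureReal_biUnion_finset_le (μ := P) s fun a' => {ω | ξ n ω = a'})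
      simpa using h4
    have h3 : ∑ a' ∈ s, P.real {ω | ξ n ω = a'} ≤ ∑ a' ∈ s, P.real {ω | ξ n ω = a} :=
      Finset.sum_le_sum fun a' ha' => hmax a' ha'
    rw [Finset.sum_const, nsmul_eq_mul, hcard] at h3
    rw [hεR]
    refine (min_le_left _ _).trans ?_
    rw [div_le_iff₀ hK0]
    linarith
  refine ⟨a, ?_⟩
  have hsub : {ω | ξ n ω ≠ a} ⊆ ⋃ a' ∈ s.erase a, {ω | ξ n ω = a'} := fun ω hω =>
    mem_iUnion₂.2 ⟨ξ n ω, Finset.mem_erase.2 ⟨hω, hmem ω⟩, rfl⟩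
  refine (measureReal_mono hsub (measure_ne_top _ _)).trans
    ((measureReal_biUnion_finset_le _ _).trans ?_)
  calc ∑ a' ∈ s.erase a, P.real {ω | ξ n ω = a'} ≤ ∑ a' ∈ s.erase a, (ε : ℝ) := by
        refine Finset.sum_le_sum fun a' ha' => ?_
        by_contra hcon
        push Not at hcon
        exact hn ⟨a, a', (Finset.ne_of_mem_erase ha').symm, hconv a hge, hconv a' hcon.le⟩
    _ ≤ ∑ a' ∈ s, (ε : ℝ) :=
        Finset.sum_le_sum_of_subset_of_nonneg (Finset.erase_subset _ _) fun _ _ _ => ε.2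
    _ = K * ε := by rw [Finset.sum_const, nsmul_eq_mul, hcard]
    _ ≤ K * (η / K) := by
        rw [hεR]
        exact mul_le_mul_of_nonneg_left (min_le_right _ _) hK0.le
    _ = η := by field_simp

lemma meas_tors : MeasurableSet {x : T | IsOfFinAddOrder x} := by
  have : {x : T | IsOfFinAddOrder x} = ⋃ n : ℕ, {x : T | 0 < n ∧ n • x = 0} := by
    ext x
    rw [mem_iUnion]
    exact isOfFinAddOrder_iff_nsmul_eq_zero
  rw [this]
  refine MeasurableSet.iUnion fun n => ?_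
  by_cases hn : 0 < n
  · simp only [hn, true_and]
    exact measurableSet_eq_fun (Pool.Agent.H847R3.XpXq.meas_smul n) measurable_const
  · simp only [hn, false_and]
    exact MeasurableSet.empty

theorem main {p q : ℕ} (hp : 2 ≤ p) (hq : 2 ≤ q)
    (hirr : Irrational (Real.log p / Real.log q))
    {b : ℕ → ℕ} {B : ℕ} (hb : ∀ n, 2 ≤ b n) (hB : ∀ n, b n ≤ B) {ξ : ℕ → Ω → ℤ}
    (hξ : ∀ n, Measurable (ξ n)) {M : ℕ} (hM : ∀ n ω, |ξ n ω| ≤ M) {m : ℕ}
    (hm : m = 0 ∨ ∀ n ω, 0 ≤ ξ n ω ∧ ξ n ω < b n)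
    {P : Measure Ω} [IsProbabilityMeasure P] {C : ℝ≥0}
    (hμp : MeasurePreserving (fun x : T => p • x) (P.map (XX b ξ 0)) (P.map (XX b ξ 0)))
    (hμq : MeasurePreserving (fun x : T => q • x) (P.map (XX b ξ 0)) (P.map (XX b ξ 0)))
    (hlow : Low P ξ m C) (hupp : Upp P ξ m C) :
    P.map (XX b ξ 0) = volume ∨ ∀ᵐ x ∂(P.map (XX b ξ 0)), IsOfFinAddOrder x := by
  by_cases h : ∃ ε : ℝ≥0, 0 < ε ∧ ∃ᶠ n in atTop, ∃ a a' : ℤ, a ≠ a' ∧
      (ε : ℝ≥0∞) ≤ P {ω | ξ n ω = a} ∧ (ε : ℝ≥0∞) ≤ P {ω | ξ n ω = a'}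
  · left
    obtain ⟨ε, hε, hnd⟩ := h
    have hC : 0 < C := by
      rcases eq_or_lt_of_le (zero_le (a := C)) with h0 | h0
      · exfalso
        have h1 := hlow 0 univ univ MeasurableSet.univ
        have e : ∀ {α : Type} (f : Ω → α), {ω | f ω ∈ (univ : Set α)} = univ := by
          intro α f
          ext ω
          simp
        rw [← h0] at h1
        simp at h1
      · exact h0
    exact nondeg hp hq hirr hb hB hξ hM hm hC hε hμp hμq hlow hnd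
  · right
    push Not at h
    have hd := dich hM (P := P) (fun ε hε hcon => hcon (h ε hε |>.mono fun n hn => by
      rintro ⟨a, a', h1, h2, h3⟩
      exact absurd h3 (not_le.2 (hn a a' h1 h2))))
    have h1 := deg hp hq hirr hb hB hξ hM hμp hμq hupp hd
    rw [ae_map_iff (meas_XX hb hξ hM 0).aemeasurable meas_tors]
    exact h1

end Pool.Agent.Zk24.QI
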